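import Pool.Agent.L7h70.PO.Comp

set_option autoImplicit false

/-! Path odd-covers: the choice of one edge from each cycle. -/

namespace Pool.Agent.L7h70.PO

variable {V : Type*} [Fintype V] [DecidableEq V]

/-- what we need from the two permutations -/
structure Two (σ τ : Equiv.Perm V) : Prop where
  s2 : ∀ v, σ (σ v) = v → σ v = v
  t2 : ∀ v, τ (τ v) = v → τ v = v
  d1 : ∀ v, σ v ≠ v → τ v ≠ σ v
  d2 : ∀ v, σ v ≠ v → τ (σ v) ≠ v

variable {σ τ : Equiv.Perm V}

omit [Fintype V] [DecidableEq V] in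
theorem ai (σ : Equiv.Perm V) (v : V) : σ (σ⁻¹ v) = v := by simp

omit [Fintype V] [DecidableEq V] in
theorem ia (σ : Equiv.Perm V) (v : V) : σ⁻¹ (σ v) = v := by simp

omit [Fintype V] [DecidableEq V] in
theorem mem_msum {ι : Type*} (R : Multiset ι) (f : ι → Multiset V) (z : V) :
    z ∈ (R.map f).sum ↔ ∃ a ∈ R, z ∈ f a := by
  induction R using Multiset.induction with
  | empty => simp
  | cons a R ih => rw [Multiset.map_cons, Multiset.sum_cons, Multiset.mem_add, ih]; simp

omit [Fintype V] [DecidableEq V] in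
theorem mv_inv {σ : Equiv.Perm V} {v : V} (h : σ v ≠ v) : σ (σ⁻¹ v) ≠ σ⁻¹ v := by
  intro h'
  rw [ai] at h'
  apply h
  conv_lhs => rw [h']
  simp

theorem good (H : Two σ τ) (hv : ∃ v, σ v ≠ v ∧ τ v ≠ v) :
    ∃ x, σ x ≠ x ∧ τ (σ (σ x)) ≠ σ (σ x) ∧ ¬ (τ (τ x) = σ x ∧ τ (τ (σ x)) = x) := by
  by_cases ha : ∃ y, σ y ≠ y ∧ τ y = y ∧ τ (σ y) ≠ σ y
  · obtain ⟨y, h1, h2, h3⟩ := ha
    refine ⟨σ⁻¹ y, mv_inv h1, by simpa using h3, ?_⟩
    rintro ⟨_, h⟩
    rw [ai, h2, h2] at h
    apply mv_inv h1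
    rw [ai]
    exact h
  · push Not at ha
    obtain ⟨v, h1, h2⟩ := hv
    set c2 := σ⁻¹ v with hc2
    set c1 := σ⁻¹ c2 with hc1
    set c0 := σ⁻¹ c1 with hc0
    have e2 : σ c2 = v := by simp [hc2]
    have e1 : σ c1 = c2 := by simp [hc1]
    have e0 : σ c0 = c1 := by simp [hc0]
    have m2 : σ c2 ≠ c2 := mv_inv h1
    have m1 : σ c1 ≠ c1 := mv_inv m2
    have m0 : σ c0 ≠ c0 := mv_inv m1
    have t2 : τ c2 ≠ c2 := fun h => h2 (by have := ha c2 m2 h; rwa [e2] at this)
    by_cases hg : τ (τ c1) = σ c1 ∧ τ (τ (σ c1)) = c1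
    · refine ⟨c0, m0, by rw [e0, e1]; exact t2, ?_⟩
      rintro ⟨_, h4⟩
      rw [e0, hg.1, e1] at h4
      exact m0 (H.s2 c0 (by rw [e0, e1, h4]))
    · exact ⟨c1, m1, by rw [e1, e2]; exact h2, hg⟩

/-- the choice in one cycle of `τ` -/
theorem pick (H : Two σ τ) {x : V} (hx : σ x ≠ x)
    (hg : ¬ (τ (τ x) = σ x ∧ τ (τ (σ x)) = x)) {v : V} (hv : τ v ≠ v) :
    ∃ a, τ.SameCycle v a ∧ a ≠ x ∧ τ⁻¹ a ≠ x ∧ a ≠ σ x ∧ τ⁻¹ a ≠ σ x ∧
      (τ.SameCycle a (σ (σ x)) → σ (σ x) = a ∨ σ (σ x) = τ⁻¹ a) := by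
  set y := σ x with hy
  set z := σ y with hz
  have hyx : y ≠ x := hx
  have hzx : z ≠ x := fun h => hx (H.s2 x h)
  have hσy : σ y ≠ y := fun h => hx (σ.injective h)
  have hzy : z ≠ y := hσy
  by_cases hc : τ.SameCycle v z
  · have hzm : τ z ≠ z := by
      intro h
      have h1 := (Equiv.Perm.sameCycle_comm.1 hc)
      obtain ⟨i, hi⟩ := h1
      rw [Equiv.Perm.zpow_apply_eq_self_of_apply_eq_self h i] at hi
      rw [← hi] at hv
      exact hv h
    have n1 : τ z ≠ y := H.d2 y hσy
    have n2 : τ⁻¹ z ≠ y := by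
      intro h
      rw [Equiv.Perm.inv_eq_iff_eq] at h
      exact H.d1 y hσy h.symm
    by_cases hxz : τ⁻¹ z = x
    · refine ⟨τ z, Equiv.Perm.sameCycle_apply_right.2 hc, ?_, by simpa using hzx, n1,
        by simpa using hzy, fun _ => Or.inr (by simp)⟩
      intro h
      apply hzm
      apply H.t2
      rw [h, ← hxz]
      simp
    · exact ⟨z, hc, hzx, hxz, hzy, n2, fun _ => Or.inl rfl⟩
  · by_contra hcon
    have hall : ∀ g, τ.SameCycle v g → g = x ∨ τ g = x ∨ g = y ∨ τ g = y := by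
      intro g hgc
      by_contra hno
      push Not at hno
      obtain ⟨n1, n2, n3, n4⟩ := hno
      apply hcon
      refine ⟨τ g, Equiv.Perm.sameCycle_apply_right.2 hgc, n2, by simpa using n1, n4,
        by simpa using n3, fun h => ?_⟩
      exact absurd ((Equiv.Perm.sameCycle_apply_right.2 hgc).trans h) hc
    have hself : τ.SameCycle v v := Equiv.Perm.SameCycle.refl _ _
    have hnoFix : ∀ g, τ.SameCycle v g → τ g ≠ g := by
      intro g hg h
      obtain ⟨i, hi⟩ := Equiv.Perm.sameCycle_comm.1 hg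
      rw [Equiv.Perm.zpow_apply_eq_self_of_apply_eq_self h i] at hi
      rw [← hi] at hv
      exact hv h
    have hno2 : ∀ g, τ.SameCycle v g → τ (τ g) ≠ g := fun g hg h => hnoFix g hg (H.t2 g h)
    have hap : ∀ g, τ.SameCycle v g → τ.SameCycle v (τ g) :=
      fun g hg => Equiv.Perm.sameCycle_apply_right.2 hg
    have hxc : τ.SameCycle v x := by
      by_contra hxc
      have h1 : ∀ g, τ.SameCycle v g → g = y ∨ τ g = y := by
        intro g hg
        rcases hall g hg with h | h | h | h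
        · exact absurd (h ▸ hg) hxc
        · exact absurd (h ▸ hap g hg) hxc
        · exact Or.inl h
        · exact Or.inr h
      have hyc : τ.SameCycle v y := by
        rcases h1 v hself with h | h
        · rw [← h]
        · rw [← h]; exact hap v hself
      rcases h1 (τ y) (hap y hyc) with h | h
      · exact hnoFix y hyc h
      · exact hno2 y hyc h
    have hyc : τ.SameCycle v y := by
      by_contra hyc
      have h1 : ∀ g, τ.SameCycle v g → g = x ∨ τ g = x := by
        intro g hg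
        rcases hall g hg with h | h | h | h
        · exact Or.inl h
        · exact Or.inr h
        · exact absurd (h ▸ hg) hyc
        · exact absurd (h ▸ hap g hg) hyc
      rcases h1 (τ x) (hap x hxc) with h | h
      · exact hnoFix x hxc h
      · exact hno2 x hxc h
    apply hg
    constructor
    · rcases hall (τ x) (hap x hxc) with h | h | h | h
      · exact absurd h (hnoFix x hxc)
      · exact absurd h (hno2 x hxc)
      · exact absurd h (H.d1 x hx)
      · exact h
    · rcases hall (τ y) (hap y hyc) with h | h | h | h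
      · exact absurd h (H.d2 x hx)
      · exact h
      · exact absurd h (hnoFix y hyc)
      · exact absurd h (hno2 y hyc)

theorem cov_cons (a b : V) (M : Multiset (Sym2 V)) :
    cov (s(a, b) ::ₘ M) = insert a (insert b (cov M)) := by
  ext v
  rw [mem_cov, Finset.mem_insert, Finset.mem_insert, mem_cov]
  constructor
  · rintro ⟨e, he, hv⟩
    rcases Multiset.mem_cons.1 he with rfl | he
    · rw [Sym2.mem_iff] at hv
      rcases hv with rfl | rfl
      · exact Or.inl rfl
      · exact Or.inr (Or.inl rfl)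
    · exact Or.inr (Or.inr ⟨e, he, hv⟩)
  · rintro (rfl | rfl | ⟨e, he, hv⟩)
    · exact ⟨_, Multiset.mem_cons_self _ _, by simp⟩
    · exact ⟨_, Multiset.mem_cons_self _ _, by simp⟩
    · exact ⟨e, Multiset.mem_cons_of_mem he, hv⟩

theorem choice (H : Two σ τ) (hv : ∃ v, σ v ≠ v ∧ τ v ≠ v) :
    ∃ R1 R2 : Multiset V, Rep σ R1 σ.support ∧ Rep τ R2 τ.support ∧
      LF (R1.map (ce σ) + R2.map (ce τ)) ∧ Odd (cov (R1.map (ce σ) + R2.map (ce τ))).card := by
  obtain ⟨x, hx, hzm, hg⟩ := good H hv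
  set y := σ x with hy
  set z := σ y with hz
  have hyx : y ≠ x := hx
  have hzx : z ≠ x := fun h => hx (H.s2 x h)
  have hσy : σ y ≠ y := fun h => hx (σ.injective h)
  have hzy : z ≠ y := hσy
  have hσz : σ z ≠ z := fun h => hσy (σ.injective h)
  -- the second factor
  obtain ⟨R2, hR2, hLF2, hQ⟩ : ∃ R2, Rep τ R2 τ.support ∧ LF (R2.map (ce τ)) ∧
      ∀ a ∈ R2, a ≠ x ∧ τ⁻¹ a ≠ x ∧ a ≠ y ∧ τ⁻¹ a ≠ y ∧ (τ.SameCycle a z → z = a ∨ z = τ⁻¹ a) := by
    refine build τ (fun R => LF (R.map (ce τ)) ∧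
      ∀ a ∈ R, a ≠ x ∧ τ⁻¹ a ≠ x ∧ a ≠ y ∧ τ⁻¹ a ≠ y ∧ (τ.SameCycle a z → z = a ∨ z = τ⁻¹ a))
      ?_ ?_ _ τ.support le_rfl ?_ ?_
    · exact ⟨by simpa using LF_zero, by simp⟩
    · rintro R X v hR hvm hX ⟨hLF, hQ⟩
      obtain ⟨a, ha, hQa⟩ := pick H hx hg hvm
      refine ⟨a, ha, ?_, ?_⟩
      · rw [Multiset.map_cons]
        have hai : τ.SameCycle v (τ⁻¹ a) := by
          have : τ.SameCycle v (τ (τ⁻¹ a)) := by simpa using ha
          exact Equiv.Perm.sameCycle_apply_right.1 this
        have hne : a ≠ τ⁻¹ a := by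
          intro h
          have h' : τ a = a := by
            conv_lhs => rw [h]
            simp
          obtain ⟨i, hi⟩ := Equiv.Perm.sameCycle_comm.1 ha
          rw [Equiv.Perm.zpow_apply_eq_self_of_apply_eq_self h' i] at hi
          rw [← hi] at hvm
          exact hvm h'
        exact LF_iso hLF hne (by rw [hR.dg_zero (hX a ha)]; omega) (hR.dg_zero (hX _ hai))
      · intro b hb
        rcases Multiset.mem_cons.1 hb with rfl | hb
        · exact hQa
        · exact hQ b hb
    · intro u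
      simp only [Equiv.Perm.mem_support]
      exact not_congr τ.injective.eq_iff
    · intro u hu
      exact Equiv.Perm.mem_support.1 hu
  have hM2 : ∀ u, dg (R2.map (ce τ)) u ≤ 1 := hR2.dg_le
  have hx2 : dg (R2.map (ce τ)) x = 0 := by
    rw [dg_eq_zero]
    intro e he hxe
    obtain ⟨a, ha, rfl⟩ := Multiset.mem_map.1 he
    unfold ce at hxe
    rw [Sym2.mem_iff] at hxe
    rcases hxe with h | h
    · exact (hQ a ha).1 h.symm
    · exact (hQ a ha).2.1 h.symm
  have hy2 : dg (R2.map (ce τ)) y = 0 := by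
    rw [dg_eq_zero]
    intro e he hxe
    obtain ⟨a, ha, rfl⟩ := Multiset.mem_map.1 he
    unfold ce at hxe
    rw [Sym2.mem_iff] at hxe
    rcases hxe with h | h
    · exact (hQ a ha).2.2.1 h.symm
    · exact (hQ a ha).2.2.2.1 h.symm
  have hz2 : 0 < dg (R2.map (ce τ)) z := by
    have h1 : z ∈ (R2.map (cyl τ)).sum := by
      rw [hR2.2]
      simpa using hzm
    rw [dg_pos]
    obtain ⟨a, ha, hzC⟩ := (mem_msum R2 (cyl τ) z).1 h1
    refine ⟨ce τ a, Multiset.mem_map_of_mem _ ha, ?_⟩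
    unfold ce
    rw [Sym2.mem_iff]
    exact (hQ a ha).2.2.2.2 (mem_cyl.1 hzC).1
  -- the first factor, except for the cycle of x
  set X1 := σ.support.filter (fun u => ¬ σ.SameCycle x u) with hX1
  obtain ⟨R, hR, hLF⟩ : ∃ R, Rep σ R X1 ∧ LF (R.map (ce σ) + R2.map (ce τ)) := by
    refine build σ (fun R => LF (R.map (ce σ) + R2.map (ce τ))) ?_ ?_ _ X1 le_rfl ?_ ?_
    · simpa using hLF2
    · intro R X v hR hvm hX hLF
      have c0 : σ.SameCycle v v := Equiv.Perm.SameCycle.refl _ _
      have c1 : σ.SameCycle v (σ v) := Equiv.Perm.sameCycle_apply_right.2 c0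
      have c2 : σ.SameCycle v (σ (σ v)) := Equiv.Perm.sameCycle_apply_right.2 c1
      have hd : ∀ u, σ.SameCycle v u → dg (R.map (ce σ) + R2.map (ce τ)) u ≤ 1 := by
        intro u hu
        rw [dg_add, hR.dg_zero (hX u hu), zero_add]
        exact hM2 u
      rcases LF_step hLF (a := v) (b := σ v) (c := σ (σ v)) (fun h => hvm h.symm)
        (fun h => hvm (σ.injective h).symm) (fun h => hvm (H.s2 v h.symm)) (hd _ c0) (hd _ c1)
        (hd _ c2) with h | h
      · refine ⟨σ v, c1, ?_⟩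
        rw [Multiset.map_cons, Multiset.cons_add]
        have : ce σ (σ v) = s(v, σ v) := by
          unfold ce; rw [ia, Sym2.eq_swap]
        rw [this]; exact h
      · refine ⟨σ (σ v), c2, ?_⟩
        rw [Multiset.map_cons, Multiset.cons_add]
        have : ce σ (σ (σ v)) = s(σ v, σ (σ v)) := by
          unfold ce; rw [ia, Sym2.eq_swap]
        rw [this]; exact h
    · intro u
      simp only [hX1, Finset.mem_filter, Equiv.Perm.mem_support, Equiv.Perm.sameCycle_apply_right]
      exact and_congr_left' (not_congr σ.injective.eq_iff)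
    · intro u hu
      exact Equiv.Perm.mem_support.1 (Finset.mem_filter.1 hu).1
  set M := R.map (ce σ) + R2.map (ce τ) with hM
  have cx : σ.SameCycle x x := Equiv.Perm.SameCycle.refl _ _
  have cy : σ.SameCycle x y := Equiv.Perm.sameCycle_apply_right.2 cx
  have cz : σ.SameCycle x z := Equiv.Perm.sameCycle_apply_right.2 cy
  have hn : ∀ u, σ.SameCycle x u → u ∉ X1 := fun u hu h => (Finset.mem_filter.1 h).2 hu
  have hMx : dg M x = 0 := by rw [hM, dg_add, hR.dg_zero (hn x cx), hx2]
  have hMy : dg M y = 0 := by rw [hM, dg_add, hR.dg_zero (hn y cy), hy2]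
  have hMz : dg M z = dg (R2.map (ce τ)) z := by rw [hM, dg_add, hR.dg_zero (hn z cz), zero_add]
  have ceY : ce σ y = s(y, x) := by unfold ce; rw [hy, ia]
  have ceZ : ce σ z = s(z, y) := by unfold ce; rw [hz, ia]
  have LA : LF (ce σ y ::ₘ M) := by
    rw [ceY]; exact LF_iso hLF hyx (by omega) hMx
  have LB : LF (ce σ z ::ₘ M) := by
    rw [ceZ]; exact LF_iso hLF hzy (by rw [hMz]; exact hM2 z) hMy
  have nx : x ∉ cov M := by
    rw [mem_cov]; intro h; have := dg_pos.2 h; omega
  have ny : y ∉ cov M := by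
    rw [mem_cov]; intro h; have := dg_pos.2 h; omega
  have nz : z ∈ cov M := by
    rw [mem_cov]; exact dg_pos.1 (by omega)
  have cA : (cov (ce σ y ::ₘ M)).card = (cov M).card + 2 := by
    rw [ceY, cov_cons, Finset.card_insert_of_notMem, Finset.card_insert_of_notMem nx]
    rw [Finset.mem_insert]
    rintro (h | h)
    · exact hyx h
    · exact ny h
  have cB : (cov (ce σ z ::ₘ M)).card = (cov M).card + 1 := by
    rw [ceZ, cov_cons, Finset.insert_comm, Finset.insert_eq_of_mem nz, Finset.card_insert_of_notMem ny]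
  have hrep : ∀ a, σ.SameCycle x a → σ a ≠ a → Rep σ (a ::ₘ R) σ.support := by
    intro a ha ham
    refine ⟨?_, ?_⟩
    · intro b hb
      rcases Multiset.mem_cons.1 hb with rfl | hb
      · exact ham
      · exact hR.1 b hb
    · rw [Multiset.map_cons, Multiset.sum_cons, hR.2]
      have hnd : (cyl σ a + X1.val).Nodup := by
        rw [Multiset.nodup_add]
        refine ⟨cyl_nodup _ _, X1.nodup, ?_⟩
        rw [Multiset.disjoint_left]
        intro u hu hu'
        exact hn u (ha.trans (mem_cyl.1 hu).1) hu'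
      refine (Multiset.Nodup.ext hnd σ.support.nodup).2 ?_
      intro u
      rw [Multiset.mem_add, mem_cyl, Finset.mem_val, Finset.mem_val, hX1, Finset.mem_filter]
      have hsupp : ∀ w, σ.SameCycle x w → w ∈ σ.support := by
        intro w hw
        rw [Equiv.Perm.mem_support]
        intro h'
        obtain ⟨i, hi⟩ := Equiv.Perm.sameCycle_comm.1 hw
        rw [Equiv.Perm.zpow_apply_eq_self_of_apply_eq_self h' i] at hi
        rw [← hi] at hx
        exact hx (by rw [hy, ← hi]; exact h')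
      constructor
      · rintro (⟨h, _⟩ | ⟨h, _⟩)
        · exact hsupp u (ha.trans h)
        · exact h
      · intro h
        by_cases h1 : σ.SameCycle x u
        · exact Or.inl ⟨ha.symm.trans h1, ham⟩
        · exact Or.inr ⟨h, h1⟩
  rcases Nat.even_or_odd (cov M).card with he | ho
  · refine ⟨z ::ₘ R, R2, hrep z cz hσz, hR2, ?_, ?_⟩
    · rw [Multiset.map_cons, Multiset.cons_add]; exact LB
    · rw [Multiset.map_cons, Multiset.cons_add, cB]; exact he.add_one
  · refine ⟨y ::ₘ R, R2, hrep y cy hσy, hR2, ?_, ?_⟩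
    · rw [Multiset.map_cons, Multiset.cons_add]; exact LA
    · rw [Multiset.map_cons, Multiset.cons_add, cA]
      exact ho.add_even (by decide)

end Pool.Agent.L7h70.PO
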