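import Pool.Agent.L7h70.PO.Cyc

set_option autoImplicit false

/-! Path odd-covers: the components of a linear forest as rows. -/

namespace Pool.Agent.L7h70.PO

variable {V : Type*}

/-- the darts of a path -/
def dl : List V → List (V × V)
  | [] => []
  | [_] => []
  | x :: y :: t => (x, y) :: dl (y :: t)

theorem es_dl : ∀ l : List V, es (dl l) = pm l
  | [] => rfl
  | [_] => rfl
  | x :: y :: t => by
    have ih := es_dl (y :: t)
    simp only [dl, es_cons, pm, ih]
    rfl

theorem two_le_dg {M : Multiset (Sym2 V)} {v : V} {e e' : Sym2 V} (he : e ∈ M) (he' : e' ∈ M)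
    (hne : e ≠ e') (hv : v ∈ e) (hv' : v ∈ e') : 2 ≤ dg M v := by
  classical
  obtain ⟨M', rfl⟩ := Multiset.exists_cons_of_mem he
  have h2 : e' ∈ M' := (Multiset.mem_cons.1 he').resolve_left (fun h => hne h.symm)
  have h3 : 0 < dg M' v := dg_pos.2 ⟨e', h2, hv'⟩
  rw [dg_cons, if_pos hv]
  omega

theorem alt (M1 M2 : Multiset (Sym2 V)) (ty : Sym2 V → Bool) (hty : ∀ e, ty e = true ↔ e ∈ M1)
    (h1 : ∀ v, dg M1 v ≤ 1) (h2 : ∀ v, dg M2 v ≤ 1) :
    ∀ l : List V, l.Nodup → (∀ e ∈ pm l, e ∈ M1 ∨ e ∈ M2) →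
      List.IsChain (fun d d' : V × V => ty (ed d) ≠ ty (ed d') ∧ d.2 = d'.1) (dl l)
  | [], _, _ => List.isChain_nil
  | [_], _, _ => List.isChain_nil
  | [_, _], _, _ => List.isChain_singleton _
  | x :: y :: z :: t, hnd, hm => by
    have ih := alt M1 M2 ty hty h1 h2 (y :: z :: t) (List.nodup_cons.1 hnd).2 (by
      intro e he
      apply hm
      rw [pm_cons]
      exact Multiset.mem_add.2 (Or.inr he))
    simp only [dl] at ih ⊢
    rw [List.isChain_cons_cons]
    refine ⟨⟨?_, rfl⟩, ih⟩
    intro heq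
    have hxz : x ≠ z := by
      rintro rfl
      simp at hnd
    have hne : s(x, y) ≠ s(y, z) := by
      intro h
      rw [Sym2.eq_iff] at h
      rcases h with ⟨rfl, rfl⟩ | ⟨h, _⟩
      · exact hxz rfl
      · exact hxz h
    have m1 := hm s(x, y) (by simp [pm])
    have m2 := hm s(y, z) (by simp [pm])
    unfold ed at heq
    by_cases hc : s(x, y) ∈ M1
    · have : s(y, z) ∈ M1 := by
        rw [← hty] at hc ⊢
        rw [← heq]; exact hc
      have := two_le_dg (v := y) hc this hne (by simp) (by simp)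
      have := h1 y
      omega
    · have : s(y, z) ∉ M1 := by
        rw [← hty] at hc ⊢
        rw [← heq]; exact hc
      have := two_le_dg (v := y) (m1.resolve_left hc) (m2.resolve_left this) hne (by simp) (by simp)
      have := h2 y
      omega

theorem Z_dl (ty : Sym2 V → Bool) : ∀ l : List V, 2 ≤ l.length →
    List.IsChain (fun d d' : V × V => ty (ed d) ≠ ty (ed d') ∧ d.2 = d'.1) (dl l) →
    Z ty (dl l) = l
  | [], h, _ => by simp at h
  | [_], h, _ => by simp at h
  | [x, y], _, _ => rfl
  | x :: y :: z :: t, _, h => by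
    have ih := Z_dl ty (y :: z :: t) (by simp)
    simp only [dl] at ih h ⊢
    rw [List.isChain_cons_cons] at h
    rw [Z_cons, if_neg h.1.1, ih h.2]

theorem mem_sum_pm (cs : List (List V)) (e : Sym2 V) :
    e ∈ (cs.map pm).sum ↔ ∃ l ∈ cs, e ∈ pm l := by
  induction cs with
  | nil => simp
  | cons l cs ih =>
    rw [List.map_cons, List.sum_cons, Multiset.mem_add, ih]
    simp

section
variable [Fintype V]

open scoped Classical in
/-- the covered vertices -/
noncomputable def cov (M : Multiset (Sym2 V)) : Finset V := Finset.univ.filter (fun v => ∃ e ∈ M, v ∈ e)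

theorem mem_cov {M : Multiset (Sym2 V)} {v : V} : v ∈ cov M ↔ ∃ e ∈ M, v ∈ e := by
  classical
  unfold cov; simp

omit [Fintype V] in
theorem coe_flatten (ls : List (List V)) :
    ((ls.flatten : List V) : Multiset V) = (ls.map (fun l => ((l : List V) : Multiset V))).sum := by
  induction ls with
  | nil => rfl
  | cons l ls ih =>
    rw [List.flatten_cons, ← Multiset.coe_add, ih, List.map_cons, List.sum_cons]

theorem comps (M1 M2 : Multiset (Sym2 V)) (ty : Sym2 V → Bool) (hty : ∀ e, ty e = true ↔ e ∈ M1)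
    (h1 : ∀ v, dg M1 v ≤ 1) (h2 : ∀ v, dg M2 v ≤ 1) (hLF : LF (M1 + M2)) :
    ∃ ws : List (List (V × V)), (∀ W ∈ ws, OK ty W) ∧ (ws.map es).sum = M1 + M2 ∧
      (ws.map (fun W => ((Z ty W : List V) : Multiset V))).sum = (cov (M1 + M2)).val := by
  classical
  obtain ⟨cs, c1, c2, c3, c4⟩ := hLF
  have hin : ∀ l ∈ cs, ∀ e ∈ pm l, e ∈ M1 + M2 := by
    intro l hl e he
    rw [← c4, mem_sum_pm]
    exact ⟨l, hl, he⟩
  have hch : ∀ l ∈ cs, List.IsChain (fun d d' : V × V => ty (ed d) ≠ ty (ed d') ∧ d.2 = d'.1) (dl l) := by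
    intro l hl
    apply alt M1 M2 ty hty h1 h2 l ((List.nodup_flatten.1 c2).1 l hl)
    intro e he
    exact Multiset.mem_add.1 (hin l hl e he)
  refine ⟨(cs.filter (fun l => 2 ≤ l.length)).map dl, ?_, ?_, ?_⟩
  · intro W hW
    obtain ⟨l, hl, rfl⟩ := List.mem_map.1 hW
    rw [List.mem_filter] at hl
    have hlen : 2 ≤ l.length := by simpa using hl.2
    refine ⟨?_, (hch l hl.1).imp (fun a b h _ => h.2)⟩
    match l, hlen with
    | x :: y :: t, _ => simp [dl]
  · rw [← c4, List.map_map]
    clear c1 c2 c3 c4 hin hch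
    induction cs with
    | nil => rfl
    | cons l cs ih =>
      rw [List.filter_cons]
      split_ifs with h
      · simp only [List.map_cons, List.sum_cons, ih, Function.comp, es_dl]
      · rw [ih, List.map_cons, List.sum_cons]
        match l, h with
        | [], _ => simp
        | [x], _ => simp
        | x :: y :: t, h => simp at h
  · rw [List.map_map]
    have e1 : ((cs.filter (fun l => 2 ≤ l.length)).map
        ((fun W => ((Z ty W : List V) : Multiset V)) ∘ dl)) =
        (cs.filter (fun l => 2 ≤ l.length)).map (fun l => ((l : List V) : Multiset V)) := by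
      apply List.map_congr_left
      intro l hl
      rw [List.mem_filter] at hl
      simp only [Function.comp]
      rw [Z_dl ty l (by simpa using hl.2) (hch l hl.1)]
    rw [e1, ← coe_flatten]
    have hnd : (cs.filter (fun l => 2 ≤ l.length)).flatten.Nodup :=
      c2.sublist (List.filter_sublist.flatten)
    refine (Multiset.Nodup.ext (Multiset.coe_nodup.2 hnd) (Finset.nodup _)).2 ?_
    intro v
    rw [Multiset.mem_coe, List.mem_flatten, Finset.mem_val, mem_cov]
    constructor
    · rintro ⟨l, hl, hv⟩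
      rw [List.mem_filter] at hl
      obtain ⟨e, he, hve⟩ := exists_mem_pm l v hv (by simpa using hl.2)
      exact ⟨e, hin l hl.1 e he, hve⟩
    · rintro ⟨e, he, hve⟩
      rw [← c4] at he
      obtain ⟨l, hl, hel⟩ := (mem_sum_pm cs e).1 he
      refine ⟨l, ?_, mem_of_mem_pm l e hel v hve⟩
      rw [List.mem_filter]
      refine ⟨hl, ?_⟩
      match l, hel with
      | [], hel => simp at hel
      | [x], hel => simp at hel
      | x :: y :: t, _ => simp

end

end Pool.Agent.L7h70.PO
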