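import Pool.Agent.L7h70.PO.Row

set_option autoImplicit false

/-! Path odd-covers: cycles of a permutation, transversals, replacing edges by long paths. -/

namespace Pool.Agent.L7h70.PO

variable {V : Type*}

theorem iter_facts (f : V → V) : ∀ (n : ℕ) (a : V),
    (List.iterate f a (n + 1)).head? = some a ∧
    (List.iterate f a (n + 1)).getLast? = some (f^[n] a) ∧
    pm (List.iterate f a (n + 1)) + {s(f^[n] a, f^[n + 1] a)} =
      (((List.iterate f a (n + 1)).map (fun v => s(v, f v)) : List (Sym2 V)) : Multiset (Sym2 V)) := by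
  intro n
  induction n with
  | zero => intro a; simp [List.iterate]
  | succ n ih =>
    intro a
    obtain ⟨h1, h2, h3⟩ := ih (f a)
    have hne : List.iterate f (f a) (n + 1) ≠ [] := by simp [List.iterate]
    have hc : List.iterate f a (n + 1 + 1) = a :: List.iterate f (f a) (n + 1) := rfl
    refine ⟨by rw [hc]; rfl, ?_, ?_⟩
    · rw [hc, getLast?_cons_ne _ hne, h2, Function.iterate_succ_apply]
    · rw [hc, pm_cons, h1, List.map_cons, ← Multiset.cons_coe, ← h3, lk_some,
        ← Function.iterate_succ_apply, ← Function.iterate_succ_apply, ← Multiset.singleton_add, add_assoc]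

section
variable [Fintype V] [DecidableEq V]

/-- the vertices of the cycle through `a` -/
def cyl (σ : Equiv.Perm V) (a : V) : Multiset V := (σ.toList a : List V)

/-- the chosen edge -/
def ce (σ : Equiv.Perm V) (a : V) : Sym2 V := s(a, σ⁻¹ a)

theorem toList_facts (σ : Equiv.Perm V) (a : V) (ha : σ a ≠ a) :
    (σ.toList a).head? = some a ∧ (σ.toList a).getLast? = some (σ⁻¹ a) ∧
    pm (σ.toList a) + {ce σ a} = (cyl σ a).map (fun v => s(v, σ v)) := by
  have hcard : 0 < (σ.cycleOf a).support.card := by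
    rw [← Equiv.Perm.length_toList]
    exact Equiv.Perm.length_toList_pos_of_mem_support _ _ (Equiv.Perm.mem_support.2 ha)
  obtain ⟨n, hn⟩ : ∃ n, (σ.cycleOf a).support.card = n + 1 := ⟨_, (Nat.succ_pred_eq_of_pos hcard).symm⟩
  have hL : σ.toList a = List.iterate σ a (n + 1) := by
    unfold Equiv.Perm.toList; rw [hn]
  obtain ⟨h1, h2, h3⟩ := iter_facts (σ : V → V) n a
  have hpow : (σ^(n+1)) a = a := by
    have h := Equiv.Perm.pow_mod_card_support_cycleOf_self_apply σ (n + 1) a
    rw [hn, Nat.mod_self, pow_zero] at h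
    exact h.symm
  have hit : (⇑σ)^[n + 1] a = a := by
    rw [Equiv.Perm.iterate_eq_pow]; exact hpow
  have hlast : (⇑σ)^[n] a = σ⁻¹ a := by
    rw [Equiv.Perm.eq_inv_iff_eq]
    rw [Function.iterate_succ_apply'] at hit
    exact hit
  refine ⟨by rw [hL]; exact h1, by rw [hL, h2, hlast], ?_⟩
  unfold cyl ce
  rw [hL, Multiset.map_coe, ← h3, hit, hlast, Sym2.eq_swap]

theorem mem_cyl {σ : Equiv.Perm V} {a u : V} : u ∈ cyl σ a ↔ σ.SameCycle a u ∧ σ a ≠ a := by
  unfold cyl
  rw [Multiset.mem_coe, Equiv.Perm.mem_toList_iff, Equiv.Perm.mem_support]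

theorem cyl_nodup (σ : Equiv.Perm V) (a : V) : (cyl σ a).Nodup :=
  Multiset.coe_nodup.2 (Equiv.Perm.nodup_toList σ a)

theorem mem_cyl_of_mem_ce {σ : Equiv.Perm V} {a u : V} (ha : σ a ≠ a) (hu : u ∈ ce σ a) :
    u ∈ cyl σ a := by
  rw [mem_cyl]
  refine ⟨?_, ha⟩
  unfold ce at hu
  rw [Sym2.mem_iff] at hu
  rcases hu with rfl | rfl
  · exact Equiv.Perm.SameCycle.refl _ _
  · exact ⟨-1, by simp⟩

/-- transversals of the cycles inside `X` -/
def Rep (σ : Equiv.Perm V) (R : Multiset V) (X : Finset V) : Prop :=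
  (∀ a ∈ R, σ a ≠ a) ∧ (R.map (cyl σ)).sum = X.val

theorem dg_le_count (σ : Equiv.Perm V) (R : Multiset V) (h : ∀ a ∈ R, σ a ≠ a) (u : V) :
    dg (R.map (ce σ)) u ≤ ((R.map (cyl σ)).sum).count u := by
  classical
  induction R using Multiset.induction with
  | empty => simp [dg_zero]
  | cons a R ih =>
    have ih' := ih (fun b hb => h b (Multiset.mem_cons_of_mem hb))
    rw [Multiset.map_cons, dg_cons, Multiset.map_cons, Multiset.sum_cons, Multiset.count_add]
    split_ifs with hu
    · have : 0 < (cyl σ a).count u := by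
        rw [Multiset.count_pos]
        exact mem_cyl_of_mem_ce (h a (Multiset.mem_cons_self _ _)) hu
      omega
    · omega

theorem Rep.dg_le {σ : Equiv.Perm V} {R : Multiset V} {X : Finset V} (h : Rep σ R X) (u : V) :
    dg (R.map (ce σ)) u ≤ 1 := by
  refine (dg_le_count σ R h.1 u).trans ?_
  rw [h.2]
  exact Multiset.nodup_iff_count_le_one.1 X.nodup u

theorem Rep.dg_zero {σ : Equiv.Perm V} {R : Multiset V} {X : Finset V} (h : Rep σ R X) {u : V}
    (hu : u ∉ X) : dg (R.map (ce σ)) u = 0 := by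
  have := dg_le_count σ R h.1 u
  rw [h.2, Multiset.count_eq_zero_of_notMem (by simpa using hu)] at this
  omega

omit [DecidableEq V] in
theorem inv_same {σ : Equiv.Perm V} {X : Finset V} (hX : ∀ u, σ u ∈ X ↔ u ∈ X) {v u : V}
    (h : σ.SameCycle v u) (hv : v ∈ X) : u ∈ X := by
  obtain ⟨i, hi', hi⟩ := h.exists_pow_eq'
  rw [← hi]
  clear hi h hi'
  induction i with
  | zero => simpa using hv
  | succ i ih => rw [pow_succ', Equiv.Perm.mul_apply, hX]; exact ih

theorem build (σ : Equiv.Perm V) (P : Multiset V → Prop) (h0 : P 0)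
    (hstep : ∀ (R : Multiset V) (X : Finset V) (v : V), Rep σ R X → σ v ≠ v →
      (∀ u, σ.SameCycle v u → u ∉ X) → P R → ∃ a, σ.SameCycle v a ∧ P (a ::ₘ R)) :
    ∀ (n : ℕ) (X : Finset V), X.card ≤ n → (∀ u, σ u ∈ X ↔ u ∈ X) → (∀ u ∈ X, σ u ≠ u) →
      ∃ R, Rep σ R X ∧ P R := by
  classical
  intro n
  induction n with
  | zero =>
    intro X hX _ _
    have : X = ∅ := Finset.card_eq_zero.1 (Nat.le_zero.1 hX)
    subst this
    exact ⟨0, ⟨by simp, by simp⟩, h0⟩
  | succ n ih =>
    intro X hX hinv hmov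
    by_cases hE : X = ∅
    · subst hE
      exact ⟨0, ⟨by simp, by simp⟩, h0⟩
    obtain ⟨v, hv⟩ := Finset.nonempty_iff_ne_empty.2 hE
    set X' := X.filter (fun u => ¬ σ.SameCycle v u) with hX'
    have hsub : X' ⊂ X := by
      rw [Finset.ssubset_iff_of_subset (Finset.filter_subset _ _)]
      exact ⟨v, hv, fun h => (Finset.mem_filter.1 h).2 (Equiv.Perm.SameCycle.refl _ _)⟩
    have hlt := Finset.card_lt_card hsub
    obtain ⟨R, hR, hP⟩ := ih X' (by omega) (by
      intro u
      simp only [hX', Finset.mem_filter, hinv, Equiv.Perm.sameCycle_apply_right]) (by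
      intro u hu
      exact hmov u (Finset.mem_filter.1 hu).1)
    obtain ⟨a, ha, hPa⟩ := hstep R X' v hR (hmov v hv) (fun u hu h => (Finset.mem_filter.1 h).2 hu) hP
    have hamov : σ a ≠ a := hmov a (inv_same hinv ha hv)
    refine ⟨a ::ₘ R, ⟨?_, ?_⟩, hPa⟩
    · intro b hb
      rcases Multiset.mem_cons.1 hb with rfl | hb
      · exact hamov
      · exact hR.1 b hb
    · rw [Multiset.map_cons, Multiset.sum_cons, hR.2]
      have hnd : (cyl σ a + X'.val).Nodup := by
        rw [Multiset.nodup_add]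
        refine ⟨cyl_nodup _ _, X'.nodup, ?_⟩
        rw [Multiset.disjoint_left]
        intro u hu hu'
        rw [Finset.mem_val] at hu'
        exact (Finset.mem_filter.1 hu').2 (ha.trans (mem_cyl.1 hu).1)
      refine (Multiset.Nodup.ext hnd X.nodup).2 ?_
      intro u
      rw [Multiset.mem_add, mem_cyl, Finset.mem_val, Finset.mem_val, hX', Finset.mem_filter]
      constructor
      · rintro (⟨h, _⟩ | ⟨h, _⟩)
        · exact inv_same hinv (ha.trans h) hv
        · exact h
      · intro h
        by_cases h1 : σ.SameCycle v u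
        · exact Or.inl ⟨ha.symm.trans h1, hamov⟩
        · exact Or.inr ⟨h, h1⟩

end

/-- replacing the chosen edges by the long ways -/
theorem expand (L : V → List V) (q : V → V) : ∀ (D : List (V × V)) (R : Multiset V),
    (∀ a ∈ R, (L a).head? = some a ∧ (L a).getLast? = some (q a)) →
    es D = R.map (fun a => s(a, q a)) →
    ∃ P : List V, P.head? = (vs D).head? ∧
      (P : Multiset V) = (R.map (fun a => ((L a : List V) : Multiset V))).sum ∧
      pm P + (es D + es D) = pm (vs D) + (R.map (fun a => pm (L a) + {s(a, q a)})).sum := by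
  intro D
  induction D with
  | nil =>
    intro R _ h
    have : R = 0 := by
      rw [es_nil] at h
      exact Multiset.map_eq_zero.1 h.symm
    subst this
    exact ⟨[], rfl, by simp, by simp⟩
  | cons d D ih =>
    intro R hR h
    rw [es_cons] at h
    have hmem : ed d ∈ R.map (fun a => s(a, q a)) := by rw [← h]; exact Multiset.mem_cons_self _ _
    obtain ⟨a, ha, had⟩ := Multiset.mem_map.1 hmem
    obtain ⟨R', rfl⟩ := Multiset.exists_cons_of_mem ha
    rw [Multiset.map_cons, had, Multiset.cons_inj_right] at h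
    obtain ⟨P', hP1, hP2, hP3⟩ := ih R' (fun b hb => hR b (Multiset.mem_cons_of_mem hb)) h
    obtain ⟨g1, g2⟩ := hR a (Multiset.mem_cons_self _ _)
    obtain ⟨L', k1, k2, k3, k4⟩ : ∃ L' : List V, L'.head? = some d.1 ∧ L'.getLast? = some d.2 ∧
        pm L' = pm (L a) ∧ L'.Perm (L a) := by
      unfold ed at had
      rw [Sym2.eq_iff] at had
      rcases had with ⟨e1, e2⟩ | ⟨e1, e2⟩
      · exact ⟨L a, by rw [g1, e1], by rw [g2, e2], rfl, List.Perm.refl _⟩
      · exact ⟨(L a).reverse, by rw [List.head?_reverse, g2, e2],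
          by rw [List.getLast?_reverse, g1, e1], pm_reverse _, List.reverse_perm _⟩
    refine ⟨L' ++ P', ?_, ?_, ?_⟩
    · rw [vs_cons]
      cases L' with
      | nil => simp at k1
      | cons b t => simpa using k1
    · rw [← Multiset.coe_add, hP2, Multiset.map_cons, Multiset.sum_cons,
        Multiset.coe_eq_coe.2 k4]
    · rw [pm_append, k2, k3, hP1, es_cons, vs_cons, pm_cons, pm_cons, Multiset.map_cons,
        Multiset.sum_cons, had]
      simp only [List.head?_cons, lk_some, ← Multiset.singleton_add]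
      calc _ = pm (L a) + lk (some d.2) (vs D).head? + {ed d} + {ed d} + (pm P' + (es D + es D)) := by
            abel
        _ = _ := by
            rw [hP3]
            unfold ed
            abel

end Pool.Agent.L7h70.PO
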