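import Mathlib

set_option autoImplicit false

/-! A graph with all degrees even and at most four is the edge-disjoint union of two systems of
cycles, given by two permutations. -/

namespace Pool.Agent.L7h70.PO

variable {V : Type*} [Fintype V] [DecidableEq V]

theorem perm_of_reg (M : V → V → ℕ) (k : ℕ) (hr : ∀ v, ∑ w, M v w = k + 1)
    (hc : ∀ w, ∑ v, M v w = k + 1) : ∃ σ : Equiv.Perm V, ∀ v, 0 < M v (σ v) := by
  obtain ⟨f, hf, hf'⟩ := (Finset.all_card_le_biUnion_card_iff_exists_injective
    (fun v => Finset.univ.filter (fun w => 0 < M v w))).1 (by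
    intro s
    set U := s.biUnion (fun v => Finset.univ.filter (fun w => 0 < M v w)) with hU
    have h1 : (k + 1) * s.card = ∑ v ∈ s, ∑ w ∈ U, M v w := by
      have : ∀ v ∈ s, ∑ w ∈ U, M v w = k + 1 := by
        intro v hv
        rw [← hr v]
        apply Finset.sum_subset (Finset.subset_univ _)
        intro w _ hw
        by_contra hne
        apply hw
        rw [hU, Finset.mem_biUnion]
        exact ⟨v, hv, by simp; omega⟩
      rw [Finset.sum_congr rfl this, Finset.sum_const, smul_eq_mul, mul_comm]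
    have h2 : ∑ v ∈ s, ∑ w ∈ U, M v w ≤ (k + 1) * U.card := by
      rw [Finset.sum_comm]
      calc ∑ w ∈ U, ∑ v ∈ s, M v w ≤ ∑ w ∈ U, (k + 1) := by
            apply Finset.sum_le_sum
            intro w _
            rw [← hc w]
            exact Finset.sum_le_sum_of_subset (Finset.subset_univ _)
        _ = (k + 1) * U.card := by rw [Finset.sum_const, smul_eq_mul, mul_comm]
    exact Nat.le_of_mul_le_mul_left (h1 ▸ h2) (Nat.succ_pos k))
  refine ⟨Equiv.ofBijective f (Finite.injective_iff_bijective.1 hf), ?_⟩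
  intro v
  have := hf' v
  simpa using this

theorem two_perms (M : V → V → ℕ) (hr : ∀ v, ∑ w, M v w = 2) (hc : ∀ w, ∑ v, M v w = 2) :
    ∃ σ τ : Equiv.Perm V, ∀ v w, M v w = (if σ v = w then 1 else 0) + (if τ v = w then 1 else 0) := by
  obtain ⟨σ, hσ⟩ := perm_of_reg M 1 hr hc
  have hle : ∀ v w, (if σ v = w then 1 else 0) ≤ M v w := by
    intro v w
    split_ifs with h
    · rw [← h]; exact hσ v
    · exact Nat.zero_le _
  set M' : V → V → ℕ := fun v w => M v w - (if σ v = w then 1 else 0) with hM'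
  have hadd : ∀ v w, M' v w + (if σ v = w then 1 else 0) = M v w := fun v w => Nat.sub_add_cancel (hle v w)
  have hr' : ∀ v, ∑ w, M' v w = 0 + 1 := by
    intro v
    have h1 : ∑ w, (M' v w + (if σ v = w then 1 else 0)) = 2 := by
      rw [← hr v]; exact Finset.sum_congr rfl (fun w _ => hadd v w)
    rw [Finset.sum_add_distrib, Finset.sum_ite_eq] at h1
    simp at h1
    omega
  have hc' : ∀ w, ∑ v, M' v w = 0 + 1 := by
    intro w
    have h1 : ∑ v, (M' v w + (if σ v = w then 1 else 0)) = 2 := by
      rw [← hc w]; exact Finset.sum_congr rfl (fun v _ => hadd v w)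
    have h2 : ∑ v, (if σ v = w then 1 else 0) = 1 := by
      have : ∀ v, (if σ v = w then 1 else 0) = (if v = σ⁻¹ w then 1 else 0) := by
        intro v
        congr 1
        rw [Equiv.Perm.eq_inv_iff_eq]
      simp only [this]
      rw [Finset.sum_ite_eq']
      simp
    rw [Finset.sum_add_distrib, h2] at h1
    omega
  obtain ⟨τ, hτ⟩ := perm_of_reg M' 0 hr' hc'
  refine ⟨σ, τ, ?_⟩
  intro v w
  rw [← hadd v w, add_comm]
  congr 1
  split_ifs with h
  · have h1 := hτ v
    rw [h] at h1
    have h2 : M' v w ≤ ∑ w, M' v w := Finset.single_le_sum (f := fun w => M' v w) (fun _ _ => Nat.zero_le _) (Finset.mem_univ w)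
    rw [hr'] at h2
    omega
  · have h1 := hτ v
    have h2 : M' v w + M' v (τ v) ≤ ∑ w, M' v w := by
      rw [← Finset.sum_pair (Ne.symm h) (f := fun w => M' v w)]
      exact Finset.sum_le_sum_of_subset (Finset.subset_univ _)
    rw [hr'] at h2
    omega

open scoped Classical in
theorem orient (G : SimpleGraph V) [DecidableRel G.Adj] (hE : ∀ v, Even (G.degree v)) :
    ∃ A : V → V → Prop, (∀ v w, G.Adj v w ↔ A v w ∨ A w v) ∧ (∀ v w, ¬ (A v w ∧ A w v)) ∧
      (∀ v, (Finset.univ.filter (fun w => A v w)).card = G.degree v / 2) ∧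
      (∀ v, (Finset.univ.filter (fun w => A w v)).card = G.degree v / 2) := by
  set t : G.edgeSet → Finset (Σ _ : V, ℕ) := fun e =>
    (Finset.univ.filter (fun v => v ∈ e.1)).sigma (fun v => Finset.range (G.degree v / 2)) with ht
  obtain ⟨f, hf, hf'⟩ := (Finset.all_card_le_biUnion_card_iff_exists_injective t).1 (by
    intro s
    set X := s.biUnion (fun e => Finset.univ.filter (fun v => v ∈ e.1)) with hX
    have hU : s.biUnion t = X.sigma (fun v => Finset.range (G.degree v / 2)) := by
      ext p
      simp only [ht, hX, Finset.mem_biUnion, Finset.mem_sigma]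
      constructor
      · rintro ⟨e, he, h1, h2⟩; exact ⟨⟨e, he, h1⟩, h2⟩
      · rintro ⟨⟨e, he, h1⟩, h2⟩; exact ⟨e, he, h1, h2⟩
    rw [hU, Finset.card_sigma]
    have h1 : 2 * s.card = ∑ e ∈ s, ∑ v ∈ X, (if v ∈ e.1 then 1 else 0) := by
      have : ∀ e ∈ s, ∑ v ∈ X, (if v ∈ e.1 then 1 else 0) = 2 := by
        rintro ⟨e, hee⟩ he
        rw [← Finset.card_filter]
        have : X.filter (fun v => v ∈ e) = Finset.univ.filter (fun v => v ∈ e) := by
          ext v
          simp only [Finset.mem_filter, Finset.mem_univ, true_and, and_iff_right_iff_imp]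
          intro hv
          rw [hX, Finset.mem_biUnion]
          exact ⟨_, he, by simpa using hv⟩
        rw [this]
        induction e using Sym2.ind with
        | _ a b =>
          have hab : a ≠ b := G.ne_of_adj hee
          have : Finset.univ.filter (fun v => v ∈ s(a, b)) = {a, b} := by
            ext v; simp
          rw [this, Finset.card_pair hab]
      rw [Finset.sum_congr rfl this, Finset.sum_const, smul_eq_mul, mul_comm]
    have h2 : ∑ e ∈ s, ∑ v ∈ X, (if v ∈ e.1 then 1 else 0) ≤ ∑ v ∈ X, G.degree v := by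
      rw [Finset.sum_comm]
      apply Finset.sum_le_sum
      intro v _
      rw [← Finset.card_filter, ← G.card_incidenceFinset_eq_degree v]
      apply Finset.card_le_card_of_injOn (fun e => e.1)
      · intro e he
        rw [Finset.mem_coe, Finset.mem_filter] at he
        rw [Finset.mem_coe, SimpleGraph.mem_incidenceFinset]
        exact ⟨e.2, he.2⟩
      · intro e _ e' _ h
        exact Subtype.ext h
    have h3 : ∑ v ∈ X, G.degree v = 2 * ∑ v ∈ X, (Finset.range (G.degree v / 2)).card := by
      rw [Finset.mul_sum]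
      apply Finset.sum_congr rfl
      intro v _
      rw [Finset.card_range]
      obtain ⟨r, hr⟩ := hE v
      omega
    omega)
  set A : V → V → Prop := fun v w => ∃ h : G.Adj v w, (f ⟨s(v, w), h⟩).1 = v with hA
  have hadj : ∀ v w, G.Adj v w ↔ A v w ∨ A w v := by
    intro v w
    constructor
    · intro h
      have h1 := hf' ⟨s(v, w), h⟩
      simp only [ht, Finset.mem_sigma, Finset.mem_filter, Finset.mem_univ, true_and] at h1
      rcases Sym2.mem_iff.1 h1.1 with h2 | h2
      · exact Or.inl ⟨h, h2⟩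
      · right
        refine ⟨h.symm, ?_⟩
        have h3 : (⟨s(w, v), h.symm⟩ : G.edgeSet) = ⟨s(v, w), h⟩ := Subtype.ext Sym2.eq_swap
        rw [h3]
        exact h2
    · rintro (⟨h, _⟩ | ⟨h, _⟩)
      · exact h
      · exact h.symm
  have hnot : ∀ v w, ¬ (A v w ∧ A w v) := by
    rintro v w ⟨⟨h, h1⟩, ⟨h', h2⟩⟩
    have : (⟨s(v, w), h⟩ : G.edgeSet) = ⟨s(w, v), h'⟩ := Subtype.ext Sym2.eq_swap
    rw [this, h2] at h1
    exact G.ne_of_adj h h1.symm
  have hout : ∀ v, (Finset.univ.filter (fun w => A v w)).card ≤ G.degree v / 2 := by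
    intro v
    rw [← Finset.card_range (G.degree v / 2)]
    apply Finset.card_le_card_of_injOn (fun w => if h : G.Adj v w then (f ⟨s(v, w), h⟩).2 else 0)
    · intro w hw
      rw [Finset.mem_coe, Finset.mem_filter] at hw
      obtain ⟨_, h, h1⟩ := hw
      simp only [dif_pos h]
      have h2 := hf' ⟨s(v, w), h⟩
      simp only [ht, Finset.mem_sigma] at h2
      rw [h1] at h2
      exact h2.2
    · intro w hw w' hw' heq
      rw [Finset.mem_coe, Finset.mem_filter] at hw hw'
      obtain ⟨_, h, h1⟩ := hw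
      obtain ⟨_, h', h1'⟩ := hw'
      simp only [dif_pos h, dif_pos h'] at heq
      have : f ⟨s(v, w), h⟩ = f ⟨s(v, w'), h'⟩ := by
        have e1 : f ⟨s(v, w), h⟩ = ⟨(f ⟨s(v, w), h⟩).1, (f ⟨s(v, w), h⟩).2⟩ := rfl
        have e2 : f ⟨s(v, w'), h'⟩ = ⟨(f ⟨s(v, w'), h'⟩).1, (f ⟨s(v, w'), h'⟩).2⟩ := rfl
        rw [e1, e2, h1, h1', heq]
      have h3 := congrArg Subtype.val (hf this)
      exact Sym2.congr_right.1 h3
  have hdeg : ∀ v, (Finset.univ.filter (fun w => A v w)).card +
      (Finset.univ.filter (fun w => A w v)).card = G.degree v := by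
    intro v
    rw [← Finset.card_union_of_disjoint]
    · rw [← G.card_neighborFinset_eq_degree]
      congr 1
      ext w
      simp [hadj v w]
    · rw [Finset.disjoint_filter]
      intro w _ h1 h2
      exact hnot v w ⟨h1, h2⟩
  have hsum : ∑ v, (Finset.univ.filter (fun w => A v w)).card =
      ∑ v, (Finset.univ.filter (fun w => A w v)).card := by
    simp only [Finset.card_filter]
    rw [Finset.sum_comm]
  have hin : ∀ v, G.degree v / 2 ≤ (Finset.univ.filter (fun w => A w v)).card := by
    intro v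
    have h1 := hout v
    have h2 := hdeg v
    obtain ⟨r, hr⟩ := hE v
    omega
  have hle1 : ∑ v, (Finset.univ.filter (fun w => A v w)).card ≤ ∑ v, G.degree v / 2 :=
    Finset.sum_le_sum (fun v _ => hout v)
  have hle2 : ∑ v, G.degree v / 2 ≤ ∑ v, (Finset.univ.filter (fun w => A w v)).card :=
    Finset.sum_le_sum (fun v _ => hin v)
  have e1 : ∑ v, (Finset.univ.filter (fun w => A v w)).card = ∑ v, G.degree v / 2 := by omega
  have e2 : ∑ v, G.degree v / 2 = ∑ v, (Finset.univ.filter (fun w => A w v)).card := by omega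
  have f1 := (Finset.sum_eq_sum_iff_of_le (fun v _ => hout v)).1 e1
  have f2 := (Finset.sum_eq_sum_iff_of_le (fun v _ => hin v)).1 e2
  refine ⟨A, hadj, hnot, fun v => ?_, fun v => ?_⟩
  · convert f1 v (Finset.mem_univ v)
  · convert (f2 v (Finset.mem_univ v)).symm

theorem two_factor (G : SimpleGraph V) [DecidableRel G.Adj] (hE : ∀ v, Even (G.degree v))
    (h4 : ∀ v, G.degree v ≤ 4) : ∃ σ τ : Equiv.Perm V, ∀ v w, v ≠ w →
      ((if σ v = w then 1 else 0) + (if τ v = w then 1 else 0)) +
      ((if σ w = v then 1 else 0) + (if τ w = v then 1 else 0)) = (if G.Adj v w then 1 else 0) := by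
  classical
  obtain ⟨A, hadj, hnot, hout, hin⟩ := orient G hE
  have hirr : ∀ v, ¬ A v v := fun v h => hnot v v ⟨h, h⟩
  set M : V → V → ℕ := fun v w => (if v = w then 2 - G.degree v / 2 else 0) + (if A v w then 1 else 0)
    with hM
  obtain ⟨σ, τ, h⟩ := two_perms M (by
    intro v
    simp only [hM]
    rw [Finset.sum_add_distrib, Finset.sum_ite_eq, ← Finset.card_filter]
    rw [hout v]
    simp only [Finset.mem_univ, if_true]
    have := h4 v
    omega) (by
    intro w
    simp only [hM]
    rw [Finset.sum_add_distrib, Finset.sum_ite_eq', ← Finset.card_filter]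
    rw [hin w]
    simp only [Finset.mem_univ, if_true]
    have := h4 w
    omega)
  refine ⟨σ, τ, ?_⟩
  intro v w hvw
  rw [← h v w, ← h w v]
  simp only [hM, if_neg hvw, if_neg (Ne.symm hvw), zero_add]
  by_cases h1 : A v w
  · have h2 : ¬ A w v := fun h2 => hnot v w ⟨h1, h2⟩
    rw [if_pos h1, if_neg h2, if_pos ((hadj v w).2 (Or.inl h1))]
  · by_cases h2 : A w v
    · rw [if_neg h1, if_pos h2, if_pos ((hadj v w).2 (Or.inr h2))]
    · rw [if_neg h1, if_neg h2, if_neg (fun h => ((hadj v w).1 h).elim h1 h2)]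

end Pool.Agent.L7h70.PO
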