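import Pool.Agent.L7h70.PO.Choice
import Pool.Agent.L7h70.PO.Hall

set_option autoImplicit false

/-! Path odd-covers: assembly. -/

namespace Pool.Agent.L7h70.PO

section walk
variable {V : Type*}

theorem walk : ∀ (t : List V) (x : V), (x :: t).Nodup →
    ∃ (v : V) (w : (⊤ : SimpleGraph V).Walk x v), w.IsPath ∧ w.support = x :: t ∧
      ∀ e, e ∈ w.edges ↔ e ∈ pm (x :: t) := by
  intro t
  induction t with
  | nil =>
    intro x _
    refine ⟨_, SimpleGraph.Walk.nil, SimpleGraph.Walk.IsPath.nil, rfl, ?_⟩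
    intro e
    simp [pm]
  | cons y t ih =>
    intro x hnd
    rw [List.nodup_cons] at hnd
    obtain ⟨v, w, hw, hs, he⟩ := ih y hnd.2
    have hxy : x ≠ y := by
      rintro rfl
      exact hnd.1 List.mem_cons_self
    have hadj : (⊤ : SimpleGraph V).Adj x y := by rw [SimpleGraph.top_adj]; exact hxy
    refine ⟨v, SimpleGraph.Walk.cons hadj w, ?_, ?_, ?_⟩
    · rw [SimpleGraph.Walk.cons_isPath_iff, hs]
      exact ⟨hw, hnd.1⟩
    · rw [SimpleGraph.Walk.support_cons, hs]
    · intro e
      rw [SimpleGraph.Walk.edges_cons, List.mem_cons, he]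
      show _ ↔ e ∈ s(x, y) ::ₘ pm (y :: t)
      rw [Multiset.mem_cons]

theorem conv3 [DecidableEq V] (P : Fin 3 → List V) (hne : ∀ i, P i ≠ []) (hnd : ∀ i, (P i).Nodup) :
    ∃ (u v : Fin 3 → V) (w : ∀ i : Fin 3, (⊤ : SimpleGraph V).Walk (u i) (v i)),
      (∀ i, (w i).IsPath) ∧ ∀ e, (Finset.univ.filter (fun i => e ∈ (w i).edges)).card =
        (pm (P 0)).count e + (pm (P 1)).count e + (pm (P 2)).count e := by
  have hex : ∀ i : Fin 3, ∃ (u v : V) (w : (⊤ : SimpleGraph V).Walk u v),
      w.IsPath ∧ ∀ e, e ∈ w.edges ↔ e ∈ pm (P i) := by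
    intro i
    have h1 := hne i
    have h2 := hnd i
    revert h1 h2
    generalize P i = l
    intro h1 h2
    cases l with
    | nil => exact absurd rfl h1
    | cons x t =>
      obtain ⟨v, w, hw, _, he⟩ := walk t x h2
      exact ⟨_, v, w, hw, he⟩
  choose u v w hw he using hex
  refine ⟨u, v, w, hw, ?_⟩
  intro e
  rw [Finset.card_filter, Fin.sum_univ_three]
  have hi : ∀ i, (if e ∈ (w i).edges then 1 else 0) = (pm (P i)).count e := by
    intro i
    by_cases h : e ∈ pm (P i)
    · rw [if_pos ((he i e).2 h), Multiset.count_eq_one_of_mem (pm_nodup _ (hnd i)) h]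
    · rw [if_neg (fun h' => h ((he i e).1 h')), Multiset.count_eq_zero_of_notMem h]
  rw [hi, hi, hi]

end walk

variable {V : Type*} [Fintype V] [DecidableEq V]

theorem count_K (σ : Equiv.Perm V) {a b : V} (hab : a ≠ b) :
    (σ.support.val.map (fun v => s(v, σ v))).count s(a, b) =
      (if σ a = b then 1 else 0) + (if σ b = a then 1 else 0) := by
  rw [Multiset.count_map]
  have h1 : (Multiset.filter (fun v => s(a, b) = s(v, σ v)) σ.support.val).card =
      (σ.support.filter (fun v => s(a, b) = s(v, σ v))).card := rfl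
  rw [h1]
  have h2 : σ.support.filter (fun v => s(a, b) = s(v, σ v)) =
      Finset.univ.filter (fun v => (v = a ∧ σ a = b) ∨ (v = b ∧ σ b = a)) := by
    ext v
    simp only [Finset.mem_filter, Equiv.Perm.mem_support, Finset.mem_univ, true_and]
    constructor
    · rintro ⟨_, h⟩
      rw [Sym2.eq_iff] at h
      rcases h with ⟨rfl, h⟩ | ⟨h, rfl⟩
      · exact Or.inl ⟨rfl, h.symm⟩
      · exact Or.inr ⟨rfl, h.symm⟩
    · rintro (⟨rfl, h⟩ | ⟨rfl, h⟩)
      · exact ⟨by rw [h]; exact fun h' => hab h'.symm, by rw [h]⟩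
      · exact ⟨by rw [h]; exact hab, by rw [h, Sym2.eq_swap]⟩
  rw [h2, Finset.card_filter]
  have h3 : ∀ v, (if (v = a ∧ σ a = b) ∨ (v = b ∧ σ b = a) then 1 else 0) =
      (if v = a then (if σ a = b then 1 else 0) else 0) +
      (if v = b then (if σ b = a then 1 else 0) else 0) := by
    intro v
    by_cases e1 : v = a
    · subst e1
      simp [hab]
    · simp [e1]
      split_ifs <;> simp_all
  simp only [h3]
  rw [Finset.sum_add_distrib, Finset.sum_ite_eq', Finset.sum_ite_eq']
  simp

theorem sum_facts (σ : Equiv.Perm V) (R : Multiset V) (h : Rep σ R σ.support) :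
    (R.map (fun a => pm (σ.toList a) + {s(a, σ⁻¹ a)})).sum =
      σ.support.val.map (fun v => s(v, σ v)) := by
  rw [← h.2]
  have h1 := h.1
  clear h
  induction R using Multiset.induction with
  | empty => simp
  | cons a R ih =>
    rw [Multiset.map_cons, Multiset.sum_cons, ih (fun b hb => h1 b (Multiset.mem_cons_of_mem hb)),
      Multiset.map_cons, Multiset.sum_cons, Multiset.map_add]
    congr 1
    exact (toList_facts σ a (h1 a (Multiset.mem_cons_self _ _))).2.2

/-- main theorem -/
theorem main (G : SimpleGraph V) [DecidableRel G.Adj] (hE : ∀ v, Even (G.degree v))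
    (h4 : ∀ v, G.degree v ≤ 4) (hv : ∃ v, G.degree v = 4) :
    ∃ (u v : Fin 3 → V) (w : ∀ i : Fin 3, (⊤ : SimpleGraph V).Walk (u i) (v i)),
      (∀ i, (w i).IsPath) ∧ ∀ a b : V, a ≠ b →
        (G.Adj a b ↔ Odd (Finset.univ.filter (fun i => s(a, b) ∈ (w i).edges)).card) := by
  obtain ⟨σ, τ, hστ⟩ := two_factor G hE h4
  have H : Two σ τ := by
    have hle : ∀ v w, v ≠ w → ((if σ v = w then 1 else 0) + (if τ v = w then 1 else 0)) +
        ((if σ w = v then 1 else 0) + (if τ w = v then 1 else 0)) ≤ 1 := by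
      intro v w h
      rw [hστ v w h]
      split_ifs <;> omega
    constructor
    · intro v h
      by_contra hne
      have := hle v (σ v) (fun h' => hne h'.symm)
      rw [if_pos rfl, if_pos h] at this
      omega
    · intro v h
      by_contra hne
      have := hle v (τ v) (fun h' => hne h'.symm)
      rw [if_pos (rfl : τ v = τ v), if_pos h] at this
      omega
    · intro v hne h
      have := hle v (σ v) (fun h' => hne h'.symm)
      rw [if_pos rfl, if_pos h] at this
      omega
    · intro v hne h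
      have := hle v (σ v) (fun h' => hne h'.symm)
      rw [if_pos rfl, if_pos h] at this
      omega
  have hv' : ∃ v, σ v ≠ v ∧ τ v ≠ v := by
    obtain ⟨v, hv⟩ := hv
    refine ⟨v, ?_⟩
    have hsub : G.neighborFinset v ⊆ ({σ v, σ⁻¹ v, τ v, τ⁻¹ v} : Finset V).erase v := by
      intro w hw
      rw [SimpleGraph.mem_neighborFinset] at hw
      have hne : v ≠ w := G.ne_of_adj hw
      rw [Finset.mem_erase]
      refine ⟨hne.symm, ?_⟩
      have := hστ v w hne
      rw [if_pos hw] at this
      simp only [Finset.mem_insert, Finset.mem_singleton]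
      by_contra hcon
      push Not at hcon
      obtain ⟨c1, c2, c3, c4⟩ := hcon
      have c2' : σ w ≠ v := by
        intro h
        apply c2
        rw [Equiv.Perm.eq_inv_iff_eq]; exact h
      have c4' : τ w ≠ v := by
        intro h
        apply c4
        rw [Equiv.Perm.eq_inv_iff_eq]; exact h
      rw [if_neg (fun h => c1 h.symm), if_neg (fun h => c3 h.symm), if_neg c2', if_neg c4'] at this
      omega
    have hcard := Finset.card_le_card hsub
    rw [SimpleGraph.card_neighborFinset_eq_degree, hv] at hcard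
    have h4' : ({σ v, σ⁻¹ v, τ v, τ⁻¹ v} : Finset V).card ≤ 4 := Finset.card_le_four
    have hmem : v ∉ ({σ v, σ⁻¹ v, τ v, τ⁻¹ v} : Finset V) := by
      intro hm
      rw [Finset.card_erase_of_mem hm] at hcard
      omega
    simp only [Finset.mem_insert, Finset.mem_singleton, not_or] at hmem
    exact ⟨fun h => hmem.1 h.symm, fun h => hmem.2.2.1 h.symm⟩
  obtain ⟨R1, R2, hR1, hR2, hLF, hodd⟩ := choice H hv'
  set M1 := R1.map (ce σ) with hM1
  set M2 := R2.map (ce τ) with hM2
  set ty : Sym2 V → Bool := fun e => decide (e ∈ M1) with hty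
  have htyM : ∀ e, ty e = true ↔ e ∈ M1 := by intro e; simp [hty]
  have hdisj : ∀ e ∈ M2, e ∉ M1 := by
    intro e he he'
    obtain ⟨a, ha, rfl⟩ := Multiset.mem_map.1 he'
    obtain ⟨b, hb, hab⟩ := Multiset.mem_map.1 he
    have hma := mv_inv (hR1.1 a ha)
    have hmb := mv_inv (hR2.1 b hb)
    unfold ce at hab
    rw [Sym2.eq_iff] at hab
    set c := σ⁻¹ a with hc
    have hca : σ c = a := ai σ a
    rw [hca] at hma
    have hcb : τ (τ⁻¹ b) = b := ai τ b
    rcases hab with ⟨h1, h2⟩ | ⟨h1, h2⟩
    · -- b = a, τ⁻¹ b = c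
      rw [h2, h1] at hcb
      exact H.d1 c (by rw [hca]; exact hma) (by rw [hcb, hca])
    · -- b = c, τ⁻¹ b = a
      rw [h2, h1] at hcb
      exact H.d2 c (by rw [hca]; exact hma) (by rw [hca]; exact hcb)
  obtain ⟨ws, w1, w2, w3⟩ := comps M1 M2 ty htyM hR1.dg_le hR2.dg_le hLF
  have hsumodd : Odd ((ws.map (fun W => (Z ty W).length)).sum) := by
    have : ((ws.map (fun W => (Z ty W).length)).sum) = (cov (M1 + M2)).card := by
      rw [Finset.card_def, ← w3]
      clear w1 w2 w3
      induction ws with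
      | nil => rfl
      | cons W ws ih => simp [ih]
    rw [this]; exact hodd
  obtain ⟨W, hW, hht, hlt, hes, hZ⟩ := row ty _ ws rfl w1 hsumodd
  rw [w2] at hes
  rw [w3] at hZ
  obtain ⟨d, W', hdW⟩ := List.exists_cons_of_ne_nil hW.1
  have hZh : (Z ty W).head? = some d.1 := by rw [hdW]; exact Z_head ty d W'
  obtain ⟨β, hβ⟩ : ∃ β, (Z ty W).getLast? = some β := by
    rw [Z_last, List.getLast?_eq_some_getLast hW.1]
    exact ⟨_, rfl⟩
  obtain ⟨DA, DB, K, g1, g2, _, g4⟩ := split ty _ W d.1 β true rfl hW hZh hβ hht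
  have g5 : pm (vs DA) + pm (vs DB) = pm (Z ty W) + (K + K) := by
    rcases g4 with ⟨h, _⟩ | ⟨_, _, h⟩
    · rw [hlt] at h; simp at h
    · exact h
  have hDA : es DA = M1 := by
    rw [g1, hes, Multiset.filter_add]
    have e1 : M1.filter (fun e => ty e = true) = M1 :=
      Multiset.filter_eq_self.2 (fun e he => (htyM e).2 he)
    have e2 : M2.filter (fun e => ty e = true) = 0 :=
      Multiset.filter_eq_nil.2 (fun e he h => hdisj e he ((htyM e).1 h))
    rw [e1, e2, add_zero]
  have hDB : es DB = M2 := by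
    rw [g2, hes, Multiset.filter_add]
    have e1 : M1.filter (fun e => ty e ≠ true) = 0 :=
      Multiset.filter_eq_nil.2 (fun e he h => h ((htyM e).2 he))
    have e2 : M2.filter (fun e => ty e ≠ true) = M2 :=
      Multiset.filter_eq_self.2 (fun e he h => hdisj e he ((htyM e).1 h))
    rw [e1, e2, zero_add]
  obtain ⟨P1, _, p12, p13⟩ := expand (fun a => σ.toList a) (fun a => σ⁻¹ a) DA R1
    (fun a ha => ⟨(toList_facts σ a (hR1.1 a ha)).1, (toList_facts σ a (hR1.1 a ha)).2.1⟩) hDA
  obtain ⟨P2, _, p22, p23⟩ := expand (fun a => τ.toList a) (fun a => τ⁻¹ a) DB R2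
    (fun a ha => ⟨(toList_facts τ a (hR2.1 a ha)).1, (toList_facts τ a (hR2.1 a ha)).2.1⟩) hDB
  have q1 : (P1 : Multiset V) = σ.support.val := by rw [p12]; exact hR1.2
  have q2 : (P2 : Multiset V) = τ.support.val := by rw [p22]; exact hR2.2
  rw [sum_facts σ R1 hR1] at p13
  rw [sum_facts τ R2 hR2] at p23
  obtain ⟨v0, hv1, hv2⟩ := hv'
  obtain ⟨u, v, w, hw, hcount⟩ := conv3 ![P1, P2, Z ty W] (by
    intro i
    fin_cases i
    · show P1 ≠ []
      rintro rfl
      have : v0 ∈ σ.support.val := by simpa using hv1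
      rw [← q1] at this
      simp at this
    · show P2 ≠ []
      rintro rfl
      have : v0 ∈ τ.support.val := by simpa using hv2
      rw [← q2] at this
      simp at this
    · show Z ty W ≠ []
      intro h
      rw [h] at hβ
      simp at hβ) (by
    intro i
    fin_cases i
    · show P1.Nodup
      rw [← Multiset.coe_nodup, q1]; exact Finset.nodup _
    · show P2.Nodup
      rw [← Multiset.coe_nodup, q2]; exact Finset.nodup _
    · show (Z ty W).Nodup
      rw [← Multiset.coe_nodup, hZ]; exact Finset.nodup _)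
  refine ⟨u, v, w, hw, ?_⟩
  intro a b hab
  have hcc : (Finset.univ.filter (fun i => s(a, b) ∈ (w i).edges)).card =
      (pm P1).count s(a, b) + (pm P2).count s(a, b) + (pm (Z ty W)).count s(a, b) := by
    exact hcount s(a, b)
  rw [hcc]
  have c1 := congrArg (Multiset.count s(a, b)) p13
  have c2 := congrArg (Multiset.count s(a, b)) p23
  have c3 := congrArg (Multiset.count s(a, b)) g5
  have k1 := count_K σ hab
  have k2 := count_K τ hab
  have k3 := hστ a b hab
  simp only [Multiset.count_add] at c1 c2 c3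
  rw [Nat.odd_iff]
  constructor
  · intro h
    rw [if_pos h] at k3
    omega
  · intro h
    by_contra hn
    rw [if_neg hn] at k3
    omega

end Pool.Agent.L7h70.PO
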