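import Mathlib

set_option autoImplicit false

/-! Path odd-covers: edge multisets of vertex lists, linear forests. -/

namespace Pool.Agent.L7h70.PO

variable {V : Type*}

/-- the edges of the path with vertex list `l` -/
def pm : List V → Multiset (Sym2 V)
  | [] => 0
  | [_] => 0
  | a :: b :: t => s(a, b) ::ₘ pm (b :: t)

/-- the link between two optional vertices -/
def lk : Option V → Option V → Multiset (Sym2 V)
  | some a, some b => {s(a, b)}
  | _, _ => 0

theorem lk_comm (x y : Option V) : lk x y = lk y x := by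
  cases x <;> cases y <;> simp [lk, Sym2.eq_swap]

@[simp] theorem lk_none_left (y : Option V) : lk none y = 0 := by cases y <;> rfl
@[simp] theorem lk_none_right (x : Option V) : lk x none = 0 := by cases x <;> rfl
@[simp] theorem lk_some (a b : V) : lk (some a) (some b) = {s(a, b)} := rfl

@[simp] theorem pm_nil : pm ([] : List V) = 0 := rfl
@[simp] theorem pm_single (a : V) : pm [a] = 0 := rfl

theorem pm_cons (a : V) (l : List V) : pm (a :: l) = lk (some a) l.head? + pm l := by
  cases l with
  | nil => simp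
  | cons b t => simp [pm]

theorem pm_append (l l' : List V) : pm (l ++ l') = pm l + lk l.getLast? l'.head? + pm l' := by
  induction l with
  | nil => simp
  | cons a l ih =>
    cases l with
    | nil => simp [pm_cons]
    | cons b t =>
      rw [List.cons_append, pm_cons, ih, pm_cons a (b :: t)]
      simp [add_assoc]

theorem pm_reverse (l : List V) : pm l.reverse = pm l := by
  induction l with
  | nil => simp
  | cons a l ih =>
    rw [List.reverse_cons, pm_append, ih, lk_comm, pm_cons a l]
    simp [List.getLast?_reverse]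
    rw [add_comm]

theorem mem_of_mem_pm : ∀ (l : List V) (e : Sym2 V), e ∈ pm l → ∀ v ∈ e, v ∈ l
  | [], e, he => by simp [pm] at he
  | [_], e, he => by simp [pm] at he
  | a :: b :: t, e, he => by
    intro v hv
    change e ∈ s(a, b) ::ₘ pm (b :: t) at he
    rw [Multiset.mem_cons] at he
    rcases he with rfl | he
    · rw [Sym2.mem_iff] at hv
      rcases hv with rfl | rfl
      · exact List.mem_cons_self
      · exact List.mem_cons_of_mem _ List.mem_cons_self
    · exact List.mem_cons_of_mem _ (mem_of_mem_pm (b :: t) e he v hv)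

theorem exists_mem_pm : ∀ (l : List V) (v : V), v ∈ l → 2 ≤ l.length → ∃ e ∈ pm l, v ∈ e
  | [], _, hv, _ => by simp at hv
  | [_], _, _, h2 => by simp at h2
  | [a, b], v, hv, _ => by
    refine ⟨s(a, b), by simp [pm], ?_⟩
    simpa using hv
  | a :: b :: c :: t, v, hv, _ => by
    rcases List.mem_cons.1 hv with rfl | hv
    · exact ⟨s(v, b), by simp [pm], by simp⟩
    · obtain ⟨e, he, hve⟩ := exists_mem_pm (b :: c :: t) v hv (by simp)
      exact ⟨e, by rw [pm_cons]; exact Multiset.mem_add.2 (Or.inr he), hve⟩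

theorem pm_nodup : ∀ l : List V, l.Nodup → (pm l).Nodup
  | [], _ => Multiset.nodup_zero
  | [_], _ => Multiset.nodup_zero
  | a :: b :: t, h => by
    rw [List.nodup_cons] at h
    change (s(a, b) ::ₘ pm (b :: t)).Nodup
    rw [Multiset.nodup_cons]
    refine ⟨fun he => h.1 ?_, pm_nodup (b :: t) h.2⟩
    exact mem_of_mem_pm _ _ he a (Sym2.mem_mk_left a b)

open scoped Classical

/-- the degree of `v` -/
noncomputable def dg (M : Multiset (Sym2 V)) (v : V) : ℕ := M.countP (fun e => v ∈ e)

theorem dg_add (M N : Multiset (Sym2 V)) (v : V) : dg (M + N) v = dg M v + dg N v := by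
  unfold dg; exact Multiset.countP_add _ _ _

theorem dg_zero (v : V) : dg (0 : Multiset (Sym2 V)) v = 0 := by
  unfold dg; exact Multiset.countP_zero _

theorem dg_cons (M : Multiset (Sym2 V)) (e : Sym2 V) (v : V) :
    dg (e ::ₘ M) v = dg M v + (if v ∈ e then 1 else 0) := by
  unfold dg
  rw [Multiset.countP_cons]

theorem dg_single (e : Sym2 V) (v : V) : dg {e} v = (if v ∈ e then 1 else 0) := by
  rw [← Multiset.cons_zero, dg_cons, dg_zero, zero_add]

theorem dg_pos {M : Multiset (Sym2 V)} {v : V} : 0 < dg M v ↔ ∃ e ∈ M, v ∈ e := by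
  unfold dg
  rw [Multiset.countP_pos]

theorem dg_eq_zero {M : Multiset (Sym2 V)} {v : V} : dg M v = 0 ↔ ∀ e ∈ M, v ∉ e := by
  rw [← not_iff_not, ← ne_eq, ← Nat.pos_iff_ne_zero, dg_pos]
  push Not
  rfl

theorem dg_mono {M N : Multiset (Sym2 V)} (h : M ≤ N) (v : V) : dg M v ≤ dg N v := by
  unfold dg; exact Multiset.countP_le_of_le _ h

/-- a vertex of degree at most one is an end -/
theorem end_of_dg {l : List V} {v : V} (hv : v ∈ l) (hd : dg (pm l) v ≤ 1) :
    l.head? = some v ∨ l.getLast? = some v := by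
  obtain ⟨s, t, rfl⟩ := List.append_of_mem hv
  rcases List.eq_nil_or_concat s with rfl | ⟨s', x, rfl⟩
  · left; simp
  · cases t with
    | nil => right; simp
    | cons z t' =>
      exfalso
      rw [List.concat_eq_append, pm_append, pm_cons v, dg_add, dg_add, dg_add] at hd
      simp [dg_single] at hd
      omega

/-- linear forests -/
def LF (M : Multiset (Sym2 V)) : Prop :=
  ∃ cs : List (List V), (∀ l ∈ cs, l ≠ []) ∧ cs.flatten.Nodup ∧ (∀ v, v ∈ cs.flatten) ∧
    (cs.map pm).sum = M

theorem LF_zero [Fintype V] : LF (0 : Multiset (Sym2 V)) := by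
  refine ⟨(Finset.univ : Finset V).toList.map (fun v => [v]), ?_, ?_, ?_, ?_⟩
  · intro l hl
    simp at hl
    obtain ⟨a, rfl⟩ := hl
    simp
  · rw [← List.flatMap_def]
    simp [List.flatMap_singleton']
    exact Finset.nodup_toList _
  · intro v
    simp
  · rw [List.map_map]
    apply List.sum_eq_zero
    intro x hx
    simp at hx
    obtain ⟨a, rfl⟩ := hx
    rfl

/-- merging two components -/
theorem LF_merge {l1 l2 : List V} {rest : List (List V)} {a b : V}
    (hne : ∀ l ∈ l1 :: l2 :: rest, l ≠ []) (hnd : (l1 :: l2 :: rest).flatten.Nodup)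
    (hall : ∀ v, v ∈ (l1 :: l2 :: rest).flatten)
    (ha : l1.head? = some a ∨ l1.getLast? = some a)
    (hb : l2.head? = some b ∨ l2.getLast? = some b) :
    LF (s(a, b) ::ₘ ((l1 :: l2 :: rest).map pm).sum) := by
  obtain ⟨k1, hk1, hp1, he1⟩ : ∃ k1 : List V, k1.getLast? = some a ∧ k1.Perm l1 ∧ pm k1 = pm l1 := by
    rcases ha with h | h
    · exact ⟨l1.reverse, by simpa using h, List.reverse_perm _, pm_reverse _⟩
    · exact ⟨l1, h, List.Perm.refl _, rfl⟩
  obtain ⟨k2, hk2, hp2, he2⟩ : ∃ k2 : List V, k2.head? = some b ∧ k2.Perm l2 ∧ pm k2 = pm l2 := by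
    rcases hb with h | h
    · exact ⟨l2, h, List.Perm.refl _, rfl⟩
    · exact ⟨l2.reverse, by simpa using h, List.reverse_perm _, pm_reverse _⟩
  have hperm : ((k1 ++ k2) :: rest).flatten.Perm (l1 :: l2 :: rest).flatten := by
    simp only [List.flatten_cons]
    rw [List.append_assoc]
    exact (hp1.append (hp2.append (List.Perm.refl _)))
  refine ⟨(k1 ++ k2) :: rest, ?_, ?_, ?_, ?_⟩
  · intro l hl
    rcases List.mem_cons.1 hl with rfl | hl
    · intro h
      rw [List.append_eq_nil_iff] at h
      rw [h.1] at hk1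
      simp at hk1
    · exact hne l (List.mem_cons_of_mem _ (List.mem_cons_of_mem _ hl))
  · exact hperm.nodup_iff.2 hnd
  · intro v
    exact hperm.mem_iff.2 (hall v)
  · simp only [List.map_cons, List.sum_cons]
    rw [pm_append, hk1, hk2, he1, he2, lk_some, ← Multiset.singleton_add]
    abel

/-- the general position of a component -/
theorem LF_split {M : Multiset (Sym2 V)} (h : LF M) (b : V) :
    ∃ (lb : List V) (rest : List (List V)), b ∈ lb ∧ (∀ l ∈ lb :: rest, l ≠ []) ∧
      (lb :: rest).flatten.Nodup ∧ (∀ v, v ∈ (lb :: rest).flatten) ∧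
      ((lb :: rest).map pm).sum = M := by
  obtain ⟨cs, h1, h2, h3, h4⟩ := h
  obtain ⟨lb, hlb, hb⟩ := List.mem_flatten.1 (h3 b)
  obtain ⟨s, t, rfl⟩ := List.append_of_mem hlb
  have hp : (s ++ lb :: t).Perm (lb :: (s ++ t)) := List.perm_middle
  refine ⟨lb, s ++ t, hb, fun l hl => h1 l (hp.mem_iff.2 hl), ?_, ?_, ?_⟩
  · exact hp.flatten.nodup_iff.1 h2
  · intro v; exact hp.flatten.mem_iff.1 (h3 v)
  · rw [← h4]; exact ((hp.map pm).sum_eq).symm

theorem LF_join {lb : List V} {rest : List (List V)} {a b : V} (hb : b ∈ lb)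
    (hne : ∀ l ∈ lb :: rest, l ≠ []) (hnd : (lb :: rest).flatten.Nodup)
    (hall : ∀ v, v ∈ (lb :: rest).flatten) (ha : a ∉ lb)
    (hda : dg (((lb :: rest).map pm).sum) a ≤ 1) (hdb : dg (((lb :: rest).map pm).sum) b ≤ 1) :
    LF (s(a, b) ::ₘ ((lb :: rest).map pm).sum) := by
  have ha' : a ∈ rest.flatten := by
    have := hall a
    rw [List.flatten_cons, List.mem_append] at this
    exact this.resolve_left ha
  obtain ⟨la, hla, haa⟩ := List.mem_flatten.1 ha'
  obtain ⟨s, t, rfl⟩ := List.append_of_mem hla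
  have hp : (lb :: (s ++ la :: t)).Perm (la :: lb :: (s ++ t)) :=
    (List.Perm.cons lb List.perm_middle).trans (List.Perm.swap _ _ _)
  have hsum : ((lb :: (s ++ la :: t)).map pm).sum = ((la :: lb :: (s ++ t)).map pm).sum :=
    (hp.map pm).sum_eq
  rw [hsum] at hda hdb ⊢
  apply LF_merge
  · intro l hl; exact hne l (hp.mem_iff.2 hl)
  · exact hp.flatten.nodup_iff.1 hnd
  · intro v; exact hp.flatten.mem_iff.1 (hall v)
  · apply end_of_dg haa
    refine le_trans (dg_mono ?_ a) hda
    simp only [List.map_cons, List.sum_cons]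
    exact Multiset.le_add_right _ _
  · apply end_of_dg hb
    refine le_trans (dg_mono ?_ b) hdb
    simp only [List.map_cons, List.sum_cons]
    exact (Multiset.le_add_right _ _).trans (Multiset.le_add_left _ _)

theorem LF_step {M : Multiset (Sym2 V)} (h : LF M) {a b c : V} (hab : a ≠ b) (hbc : b ≠ c)
    (hac : a ≠ c) (ha : dg M a ≤ 1) (hb : dg M b ≤ 1) (hc : dg M c ≤ 1) :
    LF (s(a, b) ::ₘ M) ∨ LF (s(b, c) ::ₘ M) := by
  obtain ⟨lb, rest, hbl, h1, h2, h3, rfl⟩ := LF_split h b
  by_cases hal : a ∈ lb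
  · right
    have hcl : c ∉ lb := by
      intro hcl
      have hle : dg (pm lb) ≤ dg (((lb :: rest).map pm).sum) := by
        intro v
        apply dg_mono
        simp only [List.map_cons, List.sum_cons]
        exact Multiset.le_add_right _ _
      have e1 := end_of_dg hal ((hle a).trans ha)
      have e2 := end_of_dg hbl ((hle b).trans hb)
      have e3 := end_of_dg hcl ((hle c).trans hc)
      rcases e1 with e1 | e1 <;> rcases e2 with e2 | e2 <;> rcases e3 with e3 | e3 <;>
        simp_all
    rw [Sym2.eq_swap]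
    exact LF_join hbl h1 h2 h3 hcl hc hb
  · left
    exact LF_join hbl h1 h2 h3 hal ha hb

theorem LF_iso {M : Multiset (Sym2 V)} (h : LF M) {a b : V} (hab : a ≠ b)
    (ha : dg M a ≤ 1) (hb : dg M b = 0) : LF (s(a, b) ::ₘ M) := by
  obtain ⟨lb, rest, hbl, h1, h2, h3, rfl⟩ := LF_split h b
  apply LF_join hbl h1 h2 h3 _ ha (by omega)
  intro hal
  have h2l : 2 ≤ lb.length := by
    match lb, hbl, hal with
    | [], hbl, _ => simp at hbl
    | [x], hbl, hal =>
      simp at hbl hal
      exact absurd (hal.trans hbl.symm) hab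
    | _ :: _ :: _, _, _ => simp
  obtain ⟨e, he, hbe⟩ := exists_mem_pm lb b hbl h2l
  refine dg_eq_zero.1 hb e ?_ hbe
  simp only [List.map_cons, List.sum_cons]
  exact Multiset.mem_add.2 (Or.inl he)

end Pool.Agent.L7h70.PO
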