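import Pool.Agent.L7h70.PO.Pm

set_option autoImplicit false

/-! Path odd-covers: lists of typed darts. -/

namespace Pool.Agent.L7h70.PO

variable {V : Type*}

/-- the edge of a dart -/
def ed (d : V × V) : Sym2 V := s(d.1, d.2)

@[simp] theorem ed_swap (d : V × V) : ed d.swap = ed d := by
  unfold ed; exact Sym2.eq_swap

/-- the edges of a list of darts -/
def es (D : List (V × V)) : Multiset (Sym2 V) := (D.map ed : List (Sym2 V))

@[simp] theorem es_nil : es ([] : List (V × V)) = 0 := rfl
@[simp] theorem es_cons (d : V × V) (D : List (V × V)) : es (d :: D) = ed d ::ₘ es D := rfl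
theorem es_append (D E : List (V × V)) : es (D ++ E) = es D + es E := by
  unfold es; rw [List.map_append]; rfl

/-- the vertices of a list of darts -/
def vs (D : List (V × V)) : List V := D.flatMap (fun d => [d.1, d.2])

@[simp] theorem vs_nil : vs ([] : List (V × V)) = [] := rfl
@[simp] theorem vs_cons (d : V × V) (D : List (V × V)) : vs (d :: D) = d.1 :: d.2 :: vs D := rfl

/-- reversal -/
def rv (W : List (V × V)) : List (V × V) := (W.map Prod.swap).reverse

theorem es_rv (W : List (V × V)) : es (rv W) = es W := by
  unfold es rv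
  rw [Multiset.coe_eq_coe, List.map_reverse, List.map_map]
  refine (List.reverse_perm _).trans ?_
  apply List.Perm.of_eq
  apply List.map_congr_left
  intro d _
  simp

theorem rv_ne {W : List (V × V)} (h : W ≠ []) : rv W ≠ [] := by
  unfold rv; simpa using h

theorem rv_cons (d : V × V) (W : List (V × V)) : rv (d :: W) = rv W ++ [d.swap] := by
  unfold rv; simp

theorem rv_length (W : List (V × V)) : (rv W).length = W.length := by
  unfold rv; simp

variable (ty : Sym2 V → Bool)

/-- the vertices of a row -/
def Z : List (V × V) → List V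
  | [] => []
  | [d] => [d.1, d.2]
  | d :: d' :: W => if ty (ed d) = ty (ed d') then d.1 :: d.2 :: Z (d' :: W)
      else d.1 :: Z (d' :: W)

/-- consecutive darts -/
def Rl (d d' : V × V) : Prop := ty (ed d) ≠ ty (ed d') → d.2 = d'.1

/-- rows -/
def OK (W : List (V × V)) : Prop := W ≠ [] ∧ List.IsChain (Rl ty) W

/-- type of the first dart, of the last dart -/
def ht (W : List (V × V)) : Option Bool := W.head?.map (fun d => ty (ed d))
def lt (W : List (V × V)) : Option Bool := W.getLast?.map (fun d => ty (ed d))

theorem Z_cons (d d' : V × V) (W : List (V × V)) : Z ty (d :: d' :: W) =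
    if ty (ed d) = ty (ed d') then d.1 :: d.2 :: Z ty (d' :: W) else d.1 :: Z ty (d' :: W) := rfl

theorem Z_head (d : V × V) (W : List (V × V)) : (Z ty (d :: W)).head? = some d.1 := by
  cases W with
  | nil => rfl
  | cons d' W => rw [Z_cons]; split_ifs <;> rfl

theorem Z_ne (d : V × V) (W : List (V × V)) : Z ty (d :: W) ≠ [] := by
  intro h
  have := Z_head ty d W
  rw [h] at this
  simp at this

theorem getLast?_cons_ne {α : Type*} (a : α) {l : List α} (h : l ≠ []) :
    (a :: l).getLast? = l.getLast? := by
  cases l with
  | nil => exact absurd rfl h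
  | cons b t => simp

theorem Z_last : ∀ (W : List (V × V)), (Z ty W).getLast? = W.getLast?.map (fun d => d.2)
  | [] => rfl
  | [d] => rfl
  | d :: d' :: W => by
    have ih := Z_last (d' :: W)
    have h1 := Z_ne ty d' W
    rw [Z_cons, getLast?_cons_ne d (List.cons_ne_nil d' W), ← ih]
    split_ifs
    · rw [getLast?_cons_ne _ (List.cons_ne_nil _ _), getLast?_cons_ne _ h1]
    · rw [getLast?_cons_ne _ h1]

theorem Z_snoc (d d' : V × V) (hr : Rl ty d d') : ∀ (W : List (V × V)),
    Z ty (W ++ [d, d']) =
      if ty (ed d) = ty (ed d') then Z ty (W ++ [d]) ++ [d'.1, d'.2] else Z ty (W ++ [d]) ++ [d'.2]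
  | [] => by
    simp only [List.nil_append, Z]
    split_ifs with h
    · rfl
    · rw [hr h]; rfl
  | [w] => by
    have ih := Z_snoc d d' hr []
    simp only [List.nil_append] at ih
    simp only [List.cons_append, List.nil_append]
    rw [Z_cons, ih, Z_cons]
    split_ifs <;> simp
  | w :: w' :: W => by
    have ih := Z_snoc d d' hr (w' :: W)
    simp only [List.cons_append] at ih ⊢
    rw [Z_cons, ih, Z_cons]
    split_ifs <;> simp

theorem Z_append : ∀ (W W' : List (V × V)), lt ty W = ht ty W' → W ≠ [] → W' ≠ [] →
    Z ty (W ++ W') = Z ty W ++ Z ty W'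
  | [], _, _, h, _ => absurd rfl h
  | [d], [], _, _, h => absurd rfl h
  | [d], d' :: W', h, _, _ => by
    simp [lt, ht] at h
    simp only [List.cons_append, List.nil_append, Z_cons, h, if_true]
    rfl
  | d :: d' :: W, W', h, _, h' => by
    have h2 : lt ty (d' :: W) = ht ty W' := by
      rw [← h]; unfold lt; rw [getLast?_cons_ne d (List.cons_ne_nil d' W)]
    have ih := Z_append (d' :: W) W' h2 (List.cons_ne_nil _ _) h'
    simp only [List.cons_append] at ih ⊢
    rw [Z_cons, ih, Z_cons]
    split_ifs <;> simp

theorem OK_append {W W' : List (V × V)} (h : OK ty W) (h' : OK ty W') (hl : lt ty W = ht ty W') :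
    OK ty (W ++ W') := by
  refine ⟨by simp [h.1], ?_⟩
  rw [List.isChain_append]
  refine ⟨h.2, h'.2, ?_⟩
  intro x hx y hy hne
  exfalso
  apply hne
  unfold lt ht at hl
  rw [Option.mem_def] at hx hy
  rw [hx, hy] at hl
  simpa using hl

theorem ht_append {W W' : List (V × V)} (h : W ≠ []) : ht ty (W ++ W') = ht ty W := by
  unfold ht
  cases W with
  | nil => exact absurd rfl h
  | cons a t => rfl

theorem lt_append {W W' : List (V × V)} (h : W' ≠ []) : lt ty (W ++ W') = lt ty W' := by
  unfold lt
  rw [List.getLast?_append_of_ne_nil _ h]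

theorem OK_rv {W : List (V × V)} (h : OK ty W) : OK ty (rv W) := by
  refine ⟨rv_ne h.1, ?_⟩
  unfold rv
  rw [List.isChain_reverse, List.isChain_map]
  apply h.2.imp
  intro a b hab hne
  rw [ed_swap, ed_swap] at hne
  exact (hab hne.symm).symm

theorem ht_rv (W : List (V × V)) : ht ty (rv W) = lt ty W := by
  unfold ht lt rv
  rw [List.head?_reverse, List.getLast?_map]
  cases W.getLast? with
  | none => rfl
  | some d => simp

theorem lt_rv (W : List (V × V)) : lt ty (rv W) = ht ty W := by
  unfold ht lt rv
  rw [List.getLast?_reverse, List.head?_map]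
  cases W.head? with
  | none => rfl
  | some d => simp

theorem Z_rv : ∀ (W : List (V × V)), List.IsChain (Rl ty) W → Z ty (rv W) = (Z ty W).reverse
  | [], _ => rfl
  | [d], _ => rfl
  | d :: d' :: W, h => by
    rw [List.isChain_cons_cons] at h
    have ih := Z_rv (d' :: W) h.2
    rw [rv_cons] at ih
    rw [rv_cons, rv_cons, List.append_assoc, List.cons_append, List.nil_append,
      Z_snoc ty d'.swap d.swap ?_, ih, Z_cons]
    · simp only [ed_swap]
      by_cases h1 : ty (ed d) = ty (ed d')
      · rw [if_pos h1, if_pos h1.symm]; simp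
      · rw [if_neg h1, if_neg (fun h => h1 h.symm)]; simp
    · intro hne
      rw [ed_swap, ed_swap] at hne
      exact (h.1 hne.symm).symm

/-- parity of the number of vertices -/
theorem Z_parity : ∀ (W : List (V × V)), W ≠ [] → (Odd (Z ty W).length ↔ ht ty W ≠ lt ty W)
  | [], h => absurd rfl h
  | [d], _ => by simp [Z, ht, lt]
  | d :: d' :: W, _ => by
    have ih := Z_parity (d' :: W) (List.cons_ne_nil _ _)
    have h2 : lt ty (d :: d' :: W) = lt ty (d' :: W) := by
      unfold lt; rw [getLast?_cons_ne d (List.cons_ne_nil d' W)]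
    obtain ⟨b, hb⟩ : ∃ b, lt ty (d' :: W) = some b := by
      unfold lt
      obtain ⟨x, hx⟩ : ∃ x, (d' :: W).getLast? = some x := by
        rw [List.getLast?_eq_some_getLast (List.cons_ne_nil _ _)]
        exact ⟨_, rfl⟩
      rw [hx]; exact ⟨_, rfl⟩
    rw [h2, Z_cons]
    have h3 : ht ty (d' :: W) = some (ty (ed d')) := rfl
    have h4 : ht ty (d :: d' :: W) = some (ty (ed d)) := rfl
    rw [h3, hb] at ih
    rw [h4, hb]
    by_cases h1 : ty (ed d) = ty (ed d')
    · rw [if_pos h1, h1]
      rw [← ih]
      simp only [List.length_cons]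
      rw [add_assoc, Nat.odd_add]
      simp
    · rw [if_neg h1]
      simp only [List.length_cons]
      rw [Nat.odd_add_one, ih]
      revert h1
      cases ty (ed d) <;> cases ty (ed d') <;> cases b <;> simp

/-- merging two rows, one of them mixed -/
theorem mix {W1 W2 : List (V × V)} (h1 : OK ty W1) (h2 : OK ty W2) (hm : ht ty W1 ≠ lt ty W1) :
    ∃ W, OK ty W ∧ es W = es W1 + es W2 ∧
      ((Z ty W : List V) : Multiset V) = (Z ty W1 : Multiset V) + (Z ty W2 : Multiset V) := by
  by_cases h : lt ty W1 = ht ty W2
  · refine ⟨W1 ++ W2, OK_append ty h1 h2 h, es_append _ _, ?_⟩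
    rw [Z_append ty W1 W2 h h1.1 h2.1]
    rfl
  · have h' : lt ty (rv W1) = ht ty W2 := by
      rw [lt_rv]
      obtain ⟨w1, t1, rfl⟩ := List.exists_cons_of_ne_nil h1.1
      obtain ⟨w2, t2, rfl⟩ := List.exists_cons_of_ne_nil h2.1
      obtain ⟨b, hb⟩ : ∃ b, lt ty (w1 :: t1) = some b := by
        unfold lt
        rw [List.getLast?_eq_some_getLast (List.cons_ne_nil _ _)]
        exact ⟨_, rfl⟩
      have e1 : ht ty (w1 :: t1) = some (ty (ed w1)) := rfl
      have e2 : ht ty (w2 :: t2) = some (ty (ed w2)) := rfl
      rw [e1, hb] at hm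
      rw [hb, e2] at h
      rw [e1, e2]
      revert hm h
      cases ty (ed w1) <;> cases ty (ed w2) <;> cases b <;> simp
    refine ⟨rv W1 ++ W2, OK_append ty (OK_rv ty h1) h2 h', ?_, ?_⟩
    · rw [es_append, es_rv]
    · rw [Z_append ty _ W2 h' (rv_ne h1.1) h2.1, Z_rv ty W1 h1.2, ← Multiset.coe_add]
      congr 1
      exact Multiset.coe_eq_coe.2 (List.reverse_perm _)

theorem row : ∀ (n : ℕ) (ws : List (List (V × V))), ws.length = n → (∀ W ∈ ws, OK ty W) →
    Odd ((ws.map (fun W => (Z ty W).length)).sum) →
    ∃ W, OK ty W ∧ ht ty W = some true ∧ lt ty W = some false ∧ es W = (ws.map es).sum ∧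
      ((Z ty W : List V) : Multiset V) = (ws.map (fun W => ((Z ty W : List V) : Multiset V))).sum := by
  intro n
  induction n with
  | zero =>
    intro ws h1 _ h3
    rw [List.length_eq_zero_iff] at h1
    subst h1
    simp at h3
  | succ n ih =>
    intro ws h1 h2 h3
    obtain ⟨W1, hW1, hodd⟩ : ∃ W ∈ ws, Odd (Z ty W).length := by
      by_contra hcon
      push Not at hcon
      rw [← Nat.not_even_iff_odd] at h3
      apply h3
      apply Nat.even_iff.2
      have : ∀ (l : List (List (V × V))), (∀ W ∈ l, ¬ Odd (Z ty W).length) →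
          (l.map (fun W => (Z ty W).length)).sum % 2 = 0 := by
        intro l
        induction l with
        | nil => intro _; rfl
        | cons a t iht =>
          intro h
          have e1 := iht (fun W hW => h W (List.mem_cons_of_mem _ hW))
          have e2 := h a List.mem_cons_self
          rw [Nat.not_odd_iff] at e2
          simp only [List.map_cons, List.sum_cons]
          omega
      exact this ws hcon
    obtain ⟨s, t, rfl⟩ := List.append_of_mem hW1
    have hp : (s ++ W1 :: t).Perm (W1 :: (s ++ t)) := List.perm_middle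
    have hlen : (s ++ t).length = n := by
      have := hp.length_eq
      rw [h1] at this
      simp at this ⊢
      omega
    have e1 : ((s ++ W1 :: t).map es).sum = ((W1 :: (s ++ t)).map es).sum := (hp.map es).sum_eq
    have e2 : ((s ++ W1 :: t).map (fun W => ((Z ty W : List V) : Multiset V))).sum =
      ((W1 :: (s ++ t)).map (fun W => ((Z ty W : List V) : Multiset V))).sum := (hp.map _).sum_eq
    have e3 : ((s ++ W1 :: t).map (fun W => (Z ty W).length)).sum =
      ((W1 :: (s ++ t)).map (fun W => (Z ty W).length)).sum := (hp.map _).sum_eq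
    rw [e3] at h3
    rw [e1, e2]
    have hok : ∀ W ∈ W1 :: (s ++ t), OK ty W := fun W hW => h2 W (hp.mem_iff.2 hW)
    have hW1ok := hok W1 List.mem_cons_self
    have hmix := (Z_parity ty W1 hW1ok.1).1 hodd
    generalize s ++ t = r at hlen hok h3 ⊢
    cases r with
    | nil =>
      obtain ⟨w1, t1, rfl⟩ := List.exists_cons_of_ne_nil hW1ok.1
      obtain ⟨b, hb⟩ : ∃ b, lt ty (w1 :: t1) = some b := by
        unfold lt
        rw [List.getLast?_eq_some_getLast (List.cons_ne_nil _ _)]
        exact ⟨_, rfl⟩
      have e1 : ht ty (w1 :: t1) = some (ty (ed w1)) := rfl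
      rw [e1, hb] at hmix
      by_cases h : ty (ed w1) = true
      · refine ⟨w1 :: t1, hW1ok, by rw [e1, h], ?_, by simp, by simp⟩
        rw [hb]
        rw [h] at hmix
        revert hmix
        cases b <;> simp
      · refine ⟨rv (w1 :: t1), OK_rv ty hW1ok, ?_, ?_, by simp [es_rv], ?_⟩
        · rw [ht_rv, hb]
          revert hmix h
          cases b <;> cases ty (ed w1) <;> simp
        · rw [lt_rv, e1]
          simpa using h
        · rw [Z_rv ty _ hW1ok.2]
          simp
    | cons W2 r' =>
      obtain ⟨W, hW, hes, hZ⟩ := mix ty hW1ok (hok W2 (by simp)) hmix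
      obtain ⟨W', f1, f2, f3, f4, f5⟩ := ih (W :: r') (by simpa using hlen) (by
        intro U hU
        rcases List.mem_cons.1 hU with rfl | hU
        · exact hW
        · exact hok U (by simp [hU])) (by
        have := congrArg Multiset.card hZ
        simp only [Multiset.card_add, Multiset.coe_card] at this
        simp only [List.map_cons, List.sum_cons] at h3 ⊢
        rw [this, add_assoc]
        exact h3)
      refine ⟨W', f1, f2, f3, ?_, ?_⟩
      · rw [f4]; simp only [List.map_cons, List.sum_cons]; rw [hes, add_assoc]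
      · rw [f5]; simp only [List.map_cons, List.sum_cons]; rw [hZ, add_assoc]

/-- the splitting lemma -/
theorem split : ∀ (n : ℕ) (W : List (V × V)) (α β : V) (t : Bool), W.length = n → OK ty W →
    (Z ty W).head? = some α → (Z ty W).getLast? = some β → ht ty W = some t →
    ∃ (DA DB : List (V × V)) (K : Multiset (Sym2 V)),
      es DA = (es W).filter (fun e => ty e = t) ∧ es DB = (es W).filter (fun e => ty e ≠ t) ∧
      (vs DA).head? = some α ∧
      ((lt ty W = some t ∧ pm (vs DA) + pm (β :: vs DB) = pm (Z ty W) + (K + K)) ∨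
       (lt ty W = some (!t) ∧ (vs DB).head? = some β ∧
          pm (vs DA) + pm (vs DB) = pm (Z ty W) + (K + K))) := by
  intro n
  induction n with
  | zero =>
    intro W α β t h1 h2
    rw [List.length_eq_zero_iff] at h1
    exact absurd h1 h2.1
  | succ n ih =>
    intro W α β t h1 h2 h3 h4 h5
    obtain ⟨d, W', rfl⟩ := List.exists_cons_of_ne_nil h2.1
    have hα : d.1 = α := by rw [Z_head] at h3; simpa using h3
    have htd : ty (ed d) = t := by simpa [ht] using h5
    cases W' with
    | nil =>
      have hβ : d.2 = β := by simpa [Z] using h4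
      refine ⟨[d], [], 0, ?_, ?_, ?_, Or.inl ⟨?_, ?_⟩⟩
      · simp [htd, Multiset.filter_singleton]
      · simp [htd, Multiset.filter_singleton]
      · simp [hα]
      · simp [lt, htd]
      · simp [Z]
    | cons d' W'' =>
      have hlen : (d' :: W'').length = n := by simpa using h1
      have hch := h2.2
      rw [List.isChain_cons_cons] at hch
      have hok' : OK ty (d' :: W'') := ⟨List.cons_ne_nil _ _, hch.2⟩
      have hZl : (Z ty (d' :: W'')).getLast? = some β := by
        rw [Z_last] at h4 ⊢
        rw [← h4, getLast?_cons_ne d (List.cons_ne_nil _ _)]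
      have hlt : lt ty (d :: d' :: W'') = lt ty (d' :: W'') := by
        unfold lt; rw [getLast?_cons_ne d (List.cons_ne_nil d' W'')]
      by_cases hty : ty (ed d') = t
      · obtain ⟨DA, DB, K, g1, g2, g3, g4⟩ := ih (d' :: W'') d'.1 β t hlen hok' (Z_head ty _ _) hZl
          (by simp [ht, hty])
        refine ⟨d :: DA, DB, K, ?_, ?_, by simp [hα], ?_⟩
        · rw [es_cons, g1, es_cons d, Multiset.filter_cons_of_pos (p := fun e => ty e = t) _ htd]
        · rw [g2, es_cons d, Multiset.filter_cons_of_neg _ (by simp [htd])]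
        · rw [hlt]
          have hz : pm (Z ty (d :: d' :: W'')) = s(d.1, d.2) ::ₘ s(d.2, d'.1) ::ₘ pm (Z ty (d' :: W'')) := by
            rw [Z_cons, if_pos (htd.trans hty.symm), pm_cons, pm_cons, Z_head]
            rfl
          have hv : pm (vs (d :: DA)) = s(d.1, d.2) ::ₘ s(d.2, d'.1) ::ₘ pm (vs DA) := by
            rw [vs_cons, pm_cons, pm_cons, g3]
            rfl
          rcases g4 with ⟨g4, g5⟩ | ⟨g4, g5, g6⟩
          · left
            refine ⟨g4, ?_⟩
            rw [hz, hv, Multiset.cons_add, Multiset.cons_add, g5, Multiset.cons_add, Multiset.cons_add]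
          · right
            refine ⟨g4, g5, ?_⟩
            rw [hz, hv, Multiset.cons_add, Multiset.cons_add, g6, Multiset.cons_add, Multiset.cons_add]
      · have hty' : ty (ed d') = !t := by
          revert hty; cases ty (ed d') <;> cases t <;> simp
        have hne : ty (ed d) ≠ ty (ed d') := by rw [htd]; exact fun h => hty h.symm
        have hy : d.2 = d'.1 := hch.1 hne
        have hz : pm (Z ty (d :: d' :: W'')) = s(d.1, d.2) ::ₘ pm (Z ty (d' :: W'')) := by
          rw [Z_cons, if_neg hne, pm_cons, Z_head, ← hy]
          rfl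
        have hf1 : ∀ (M : Multiset (Sym2 V)), M.filter (fun e => ty e ≠ !t) = M.filter (fun e => ty e = t) := by
          intro M
          apply Multiset.filter_congr
          intro e _
          cases ty e <;> cases t <;> simp
        have hf2 : ∀ (M : Multiset (Sym2 V)), M.filter (fun e => ty e = !t) = M.filter (fun e => ty e ≠ t) := by
          intro M
          apply Multiset.filter_congr
          intro e _
          cases ty e <;> cases t <;> simp
        have hlast : lt ty (d' :: W'') = some t ∨ lt ty (d' :: W'') = some (!t) := by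
          obtain ⟨b, hb⟩ : ∃ b, lt ty (d' :: W'') = some b := by
            unfold lt
            rw [List.getLast?_eq_some_getLast (List.cons_ne_nil _ _)]
            exact ⟨_, rfl⟩
          rw [hb]
          cases b <;> cases t <;> simp
        rcases hlast with hl | hl
        · obtain ⟨DA, DB, K, g1, g2, g3, g4⟩ := ih (d' :: W'') d'.1 β (!t) hlen hok'
            (Z_head ty _ _) hZl (by simp [ht, hty'])
          rw [hf2] at g1
          rw [hf1] at g2
          rcases g4 with ⟨g4, _⟩ | ⟨_, g5, g6⟩
          · exfalso
            rw [hl] at g4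
            revert g4
            cases t <;> simp
          · refine ⟨d :: DB, DA, K + {s(d.2, β)}, ?_, ?_, by simp [hα], Or.inl ⟨?_, ?_⟩⟩
            · rw [es_cons, g2, es_cons d, Multiset.filter_cons_of_pos (p := fun e => ty e = t) _ htd]
            · rw [g1, es_cons d, Multiset.filter_cons_of_neg _ (by simp [htd])]
            · rw [hlt, hl]
            · rw [hz, vs_cons, pm_cons, pm_cons, pm_cons β, g3, g5, ← hy]
              simp only [List.head?_cons, lk_some, ← Multiset.singleton_add]
              rw [Sym2.eq_swap (a := β)]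
              calc _ = {s(d.1, d.2)} + (pm (vs DA) + pm (vs DB)) + ({s(d.2, β)} + {s(d.2, β)}) := by
                    abel
                _ = _ := by rw [g6]; abel
        · obtain ⟨DA, DB, K, g1, g2, g3, g4⟩ := ih (rv (d' :: W'')) β d'.1 (!t)
            (by rw [rv_length]; exact hlen) (OK_rv ty hok')
            (by rw [Z_rv ty _ hch.2, List.head?_reverse]; exact hZl)
            (by rw [Z_rv ty _ hch.2, List.getLast?_reverse]; exact Z_head ty _ _)
            (by rw [ht_rv, hl])
          rw [es_rv, hf2] at g1
          rw [es_rv, hf1] at g2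
          rw [lt_rv, Z_rv ty _ hch.2, pm_reverse] at g4
          rcases g4 with ⟨_, g4⟩ | ⟨g4, _, _⟩
          · refine ⟨d :: DB, DA, K, ?_, ?_, by simp [hα], Or.inr ⟨?_, g3, ?_⟩⟩
            · rw [es_cons, g2, es_cons d, Multiset.filter_cons_of_pos (p := fun e => ty e = t) _ htd]
            · rw [g1, es_cons d, Multiset.filter_cons_of_neg _ (by simp [htd])]
            · rw [hlt, hl]
            · rw [hz, vs_cons, pm_cons d.1, hy]
              simp only [List.head?_cons, lk_some, ← Multiset.singleton_add]
              rw [add_assoc, add_assoc, ← g4]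
              abel
          · exfalso
            simp [ht, hty'] at g4

end Pool.Agent.L7h70.PO
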